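import Pool.Agent.Lib.MP_776403_ag.SD.SpecL

/-!
# THEOREM SD, part L, `S_Noe`: linear Noether normalization
-/

set_option autoImplicit false

open MvPolynomial

noncomputable section

namespace Pool.Agent.Lib.MP_776403_ag.SD

namespace NoeAux

/-- Transitivity of integrality. -/
theorem trans {A B R : Type} [CommRing A] [CommRing B] [CommRing R] (f : A →+* R) (g : B →+* R)
    (h : ∀ b, f.IsIntegralElem (g b)) {x : R} (hx : g.IsIntegralElem x) : f.IsIntegralElem x := by
  let _ : Algebra A R := f.toAlgebra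
  let _ : Algebra B R := g.toAlgebra
  have hx' : IsIntegral B x := hx
  let g' : B →+* integralClosure A R := g.codRestrict (integralClosure A R) (fun b => h b)
  have h1 : IsIntegral (integralClosure A R) ((RingHom.id R) x) :=
    hx'.map_of_comp_eq g' (RingHom.id R) (RingHom.ext fun b => rfl)
  have h2 : IsIntegral A ((RingHom.id R) x) := isIntegral_trans _ h1
  exact h2

theorem prodLem {σ B : Type} [CommRing B] (a b : σ → B) (d : σ → ℕ) (s : Finset σ) :
    (∏ i ∈ s, (Polynomial.C (a i) + Polynomial.C (b i) * Polynomial.X) ^ d i).natDegree ≤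
      ∑ i ∈ s, d i ∧
    (∏ i ∈ s, (Polynomial.C (a i) + Polynomial.C (b i) * Polynomial.X) ^ d i).coeff
      (∑ i ∈ s, d i) = ∏ i ∈ s, b i ^ d i := by
  classical
  have hlin : ∀ i, (Polynomial.C (a i) + Polynomial.C (b i) * Polynomial.X).natDegree ≤ 1 := by
    intro i
    rw [add_comm]
    exact Polynomial.natDegree_linear_le
  have hcf : ∀ i, (Polynomial.C (a i) + Polynomial.C (b i) * Polynomial.X).coeff 1 = b i := by
    intro i
    simp [Polynomial.coeff_C]
  induction s using Finset.induction_on with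
  | empty => simp
  | insert i s his ih =>
    rw [Finset.prod_insert his, Finset.sum_insert his, Finset.prod_insert his]
    have h1 : ((Polynomial.C (a i) + Polynomial.C (b i) * Polynomial.X) ^ d i).natDegree ≤ d i := by
      refine (Polynomial.natDegree_pow_le).trans ?_
      have := Nat.mul_le_mul_left (d i) (hlin i)
      rwa [mul_one] at this
    have h2 : ((Polynomial.C (a i) + Polynomial.C (b i) * Polynomial.X) ^ d i).coeff (d i) =
        b i ^ d i := by
      have := Polynomial.coeff_pow_of_natDegree_le (m := d i) (hlin i)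
      rwa [mul_one, hcf] at this
    refine ⟨(Polynomial.natDegree_mul_le).trans (add_le_add h1 ih.1), ?_⟩
    rw [Polynomial.coeff_mul_add_eq_of_natDegree_le h1 ih.1, h2, ih.2]

/-- The leading coefficient of `q (a + b T)`. -/
theorem lead {r : ℕ} {B : Type} [CommRing B] [Algebra ℂ B] (a b : Fin r → B)
    {q : MvPolynomial (Fin r) ℂ} {m : ℕ} (hq : q.IsHomogeneous m) :
    (aeval (fun i => Polynomial.C (a i) + Polynomial.C (b i) * Polynomial.X) q).natDegree ≤ m ∧
    (aeval (fun i => Polynomial.C (a i) + Polynomial.C (b i) * Polynomial.X) q).coeff m =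
      aeval b q := by
  have hdeg : ∀ d ∈ q.support, ∑ i, d i = m := by
    intro d hd
    have h := hq (mem_support_iff.1 hd)
    have h2 : (Finsupp.degree d : ℕ) = Finsupp.weight 1 d := by
      rw [Finsupp.degree_eq_weight_one]
      rfl
    rw [← h, ← h2, Finsupp.degree_eq_sum]
  have h1 : ∀ w : Fin r → Polynomial B, aeval w q =
      ∑ d ∈ q.support, Polynomial.C (algebraMap ℂ B (q.coeff d)) * ∏ i, w i ^ d i := by
    intro w
    rw [aeval_def, eval₂_eq']
    rfl
  have h2 : aeval b q = ∑ d ∈ q.support, algebraMap ℂ B (q.coeff d) * ∏ i, b i ^ d i := by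
    rw [aeval_def, eval₂_eq']
  rw [h1, h2]
  constructor
  · refine Polynomial.natDegree_sum_le_of_forall_le _ _ fun d hd => ?_
    refine (Polynomial.natDegree_C_mul_le _ _).trans ?_
    have := (prodLem a b d Finset.univ).1
    rwa [hdeg d hd] at this
  · rw [Polynomial.finsetSum_coeff]
    refine Finset.sum_congr rfl fun d hd => ?_
    rw [Polynomial.coeff_C_mul]
    have := (prodLem a b d Finset.univ).2
    rw [hdeg d hd] at this
    rw [this]

theorem comp_aeval {r N : ℕ} {y : Fin r → Sx N} (hy : ∀ i, (y i).IsHomogeneous 1) (n : ℕ)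
    (F : MvPolynomial (Fin r) ℂ) :
    homogeneousComponent n (aeval y F) = aeval y (homogeneousComponent n F) := by
  have h3 : ∀ i, (aeval y (homogeneousComponent i F)).IsHomogeneous i := by
    intro i
    have := (homogeneousComponent_isHomogeneous i F).aeval y hy
    rwa [one_mul] at this
  by_cases hn : n ∈ Finset.range (F.totalDegree + 1)
  · conv_lhs => rw [← sum_homogeneousComponent F, map_sum, map_sum]
    rw [Finset.sum_eq_single n]
    · rw [homogeneousComponent_of_mem (h3 n), if_pos rfl]
    · intro i _ hi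
      rw [homogeneousComponent_of_mem (h3 i), if_neg (Ne.symm hi)]
    · intro h
      exact absurd hn h
  · have h4 : homogeneousComponent n F = 0 := by
      refine homogeneousComponent_eq_zero _ _ ?_
      rw [Finset.mem_range] at hn
      omega
    rw [h4, map_zero]
    conv_lhs => rw [← sum_homogeneousComponent F, map_sum, map_sum]
    refine Finset.sum_eq_zero fun i hi => ?_
    rw [homogeneousComponent_of_mem (h3 i), if_neg]
    rintro rfl
    exact hn hi

/-- Homogeneous components of a product with a form. -/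
theorem comp_mul {N : ℕ} {a t : Sx N} {d n : ℕ} (ht : t.IsHomogeneous d) (hdn : d ≤ n) :
    homogeneousComponent n (a * t) = homogeneousComponent (n - d) a * t := by
  let _ := MvPolynomial.gradedAlgebra (σ := Fin (N + 1)) (R := ℂ)
  have h : ∀ (p : Sx N) (i : ℕ), (DirectSum.decompose (homogeneousSubmodule (Fin (N + 1)) ℂ) p i :
      Sx N) = homogeneousComponent i p := fun p i => decomposition.decompose'_apply p i
  have h1 := DirectSum.coe_decompose_mul_of_right_mem_of_le
    (𝒜 := homogeneousSubmodule (Fin (N + 1)) ℂ) (a := a) (b := t) (i := d) (n := n) ht hdn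
  rwa [h, h] at h1

/-- The map `ℂ[y] → S / I`. -/
def ph {N r : ℕ} (I : Ideal (Sx N)) (y : Fin r → Sx N) : MvPolynomial (Fin r) ℂ →ₐ[ℂ] Sx N ⧸ I :=
  aeval fun i => Ideal.Quotient.mk I (y i)

theorem ph_eq {N r : ℕ} (I : Ideal (Sx N)) (y : Fin r → Sx N) (q : MvPolynomial (Fin r) ℂ) :
    ph I y q = Ideal.Quotient.mk I (aeval y q) := by
  have h := comp_aeval_apply (R := ℂ) y (Ideal.Quotient.mkₐ ℂ I) q
  exact h.symm

/-- The statement `P r`. -/
def PP (N : ℕ) (I : Ideal (Sx N)) (r : ℕ) : Prop :=
  ∃ y : Fin r → Sx N, (∀ i, (y i).IsHomogeneous 1) ∧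
    ∀ j : Fin (N + 1), (ph I y).toRingHom.IsIntegralElem (Ideal.Quotient.mk I (X j))

theorem PP_top (N : ℕ) (I : Ideal (Sx N)) : PP N I (N + 1) := by
  refine ⟨X, fun i => isHomogeneous_X ℂ i, fun j => ?_⟩
  have h1 : Ideal.Quotient.mk I (X j) = (ph I (X : Fin (N + 1) → Sx N)).toRingHom (X j) := by
    show Ideal.Quotient.mk I (X j) = ph I (X : Fin (N + 1) → Sx N) (X j)
    rw [ph, aeval_X]
  rw [h1]
  exact (ph I (X : Fin (N + 1) → Sx N)).toRingHom.isIntegralElem_map

/-- One linear form less. -/
theorem drop {N : ℕ} {I : Ideal (Sx N)} (hI : I.IsPrime) (hh : IsHom I) {r : ℕ} {y : Fin r → Sx N}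
    (hy : ∀ i, (y i).IsHomogeneous 1)
    (hint : ∀ j : Fin (N + 1), (ph I y).toRingHom.IsIntegralElem (Ideal.Quotient.mk I (X j)))
    {q : MvPolynomial (Fin r) ℂ} (hq : q ≠ 0) (hqI : aeval y q ∈ I) : ∃ r' < r, PP N I r' := by
  classical
  -- a homogeneous relation
  obtain ⟨m, hm⟩ : ∃ m, homogeneousComponent m q ≠ 0 := by
    by_contra hcon
    push Not at hcon
    refine hq ?_
    rw [← sum_homogeneousComponent q]
    exact Finset.sum_eq_zero fun i _ => hcon i
  have hqm : aeval y (homogeneousComponent m q) ∈ I := by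
    rw [← comp_aeval hy]
    exact hh _ hqI m
  obtain ⟨u, hu⟩ : ∃ u : Fin r → ℂ, eval u (homogeneousComponent m q) ≠ 0 := by
    by_contra hcon
    push Not at hcon
    refine hm (MvPolynomial.funext fun u => ?_)
    rw [hcon u, map_zero]
  have hhom := homogeneousComponent_isHomogeneous m q
  generalize homogeneousComponent m q = p at hm hqm hu hhom
  have hm0 : m ≠ 0 := by
    rintro rfl
    have h0 : p = C (p.coeff 0) :=
      totalDegree_eq_zero_iff_eq_C.1 (Nat.le_zero.1 hhom.totalDegree_le)
    rw [h0, aeval_C] at hqm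
    have hc : p.coeff 0 ≠ 0 := by
      intro h
      rw [h, C_0] at h0
      exact hm h0
    refine hI.ne_top (Ideal.eq_top_of_isUnit_mem _ hqm ?_)
    exact (IsUnit.mk0 _ hc).map _
  obtain ⟨k, hk⟩ : ∃ k, u k ≠ 0 := by
    by_contra hcon
    push Not at hcon
    have hu0 : u = 0 := funext hcon
    rw [hu0] at hu
    refine hu ?_
    rw [eval_zero, constantCoeff_eq]
    refine hhom.coeff_eq_zero ?_
    rw [map_zero]
    exact Ne.symm hm0
  obtain ⟨r', rfl⟩ : ∃ r', r = r' + 1 := ⟨r - 1, by have := k.pos; omega⟩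
  refine ⟨r', Nat.lt_succ_self r', ?_⟩
  let τ : Sx N := C (u k)⁻¹ * y k
  let y' : Fin r' → Sx N := fun i => y (k.succAbove i) - C (u (k.succAbove i)) * τ
  have hτ : τ.IsHomogeneous 1 := by
    have := (isHomogeneous_C (Fin (N + 1)) (u k)⁻¹).mul (hy k)
    rwa [zero_add] at this
  have hy' : ∀ i, (y' i).IsHomogeneous 1 := by
    intro i
    have := (isHomogeneous_C (Fin (N + 1)) (u (k.succAbove i))).mul hτ
    rw [zero_add] at this
    exact (hy _).sub this
  have hC : ∀ c : ℂ, ph I y' (C c) = Ideal.Quotient.mk I (C c) := by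
    intro c
    rw [ph_eq, aeval_C]
    rfl
  have hyk : Ideal.Quotient.mk I (y k) = ph I y' (C (u k)) * Ideal.Quotient.mk I τ := by
    rw [hC, ← map_mul]
    congr 1
    show y k = C (u k) * (C (u k)⁻¹ * y k)
    rw [← mul_assoc, ← C_mul, mul_inv_cancel₀ hk, C_1, one_mul]
  have hyi : ∀ i, Ideal.Quotient.mk I (y (k.succAbove i)) =
      ph I y' (X i) + ph I y' (C (u (k.succAbove i))) * Ideal.Quotient.mk I τ := by
    intro i
    rw [hC, ph_eq, aeval_X, ← map_mul, ← map_add]
    congr 1
    show y (k.succAbove i) = y (k.succAbove i) - C (u (k.succAbove i)) * τ +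
      C (u (k.succAbove i)) * τ
    rw [sub_add_cancel]
  -- the equation of `τ`
  let a : Fin (r' + 1) → MvPolynomial (Fin r') ℂ :=
    Fin.insertNth (α := fun _ => MvPolynomial (Fin r') ℂ) k 0 X
  let b : Fin (r' + 1) → MvPolynomial (Fin r') ℂ := fun i => C (u i)
  obtain ⟨h1, h2⟩ := lead a b hhom
  have h3 : aeval b p = C (eval u p) := by
    have h4 := comp_aeval_apply (R := ℂ) u (Algebra.ofId ℂ (MvPolynomial (Fin r') ℂ)) p
    exact h4.symm
  set Q := aeval (fun i => Polynomial.C (a i) + Polynomial.C (b i) * Polynomial.X) p with hQ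
  have hQ0 : Polynomial.eval₂ (ph I y').toRingHom (Ideal.Quotient.mk I τ) Q = 0 := by
    have h5 : (Polynomial.eval₂RingHom (ph I y').toRingHom (Ideal.Quotient.mk I τ)).comp
        (aeval (R := ℂ) (fun i => Polynomial.C (a i) + Polynomial.C (b i) *
          Polynomial.X)).toRingHom = (ph I y).toRingHom := by
      refine MvPolynomial.ringHom_ext (fun c => ?_) (fun i => ?_)
      · show Polynomial.eval₂ (ph I y').toRingHom (Ideal.Quotient.mk I τ)
          (aeval (R := ℂ) (fun i => Polynomial.C (a i) + Polynomial.C (b i) *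
          Polynomial.X) (C c)) = ph I y (C c)
        rw [aeval_C, ph_eq, aeval_C]
        have h6 : algebraMap ℂ (Polynomial (MvPolynomial (Fin r') ℂ)) c =
          Polynomial.C (C c) := rfl
        rw [h6, Polynomial.eval₂_C]
        exact hC c
      · show Polynomial.eval₂ (ph I y').toRingHom (Ideal.Quotient.mk I τ)
          (aeval (R := ℂ) (fun i => Polynomial.C (a i) + Polynomial.C (b i) *
          Polynomial.X) (X i)) = ph I y (X i)
        rw [aeval_X, ph_eq, aeval_X, Polynomial.eval₂_add, Polynomial.eval₂_mul,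
          Polynomial.eval₂_C, Polynomial.eval₂_C, Polynomial.eval₂_X]
        show ph I y' (a i) + ph I y' (b i) * Ideal.Quotient.mk I τ = Ideal.Quotient.mk I (y i)
        rcases Fin.eq_self_or_eq_succAbove k i with rfl | ⟨i', rfl⟩
        · have h7 : a i = 0 :=
            Fin.insertNth_apply_same (α := fun _ => MvPolynomial (Fin r') ℂ) i 0 X
          rw [h7, map_zero, zero_add]
          exact hyk.symm
        · have h7 : a (k.succAbove i') = X i' :=
            Fin.insertNth_apply_succAbove (α := fun _ => MvPolynomial (Fin r') ℂ) k 0 X i'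
          rw [h7]
          exact (hyi i').symm
    have h8 := congrArg (fun f => f p) h5
    have h9 : Polynomial.eval₂ (ph I y').toRingHom (Ideal.Quotient.mk I τ) Q = ph I y p := h8
    rw [h9, ph_eq]
    exact Ideal.Quotient.eq_zero_iff_mem.2 hqm
  have hτi : (ph I y').toRingHom.IsIntegralElem (Ideal.Quotient.mk I τ) := by
    refine ⟨Polynomial.C (C (eval u p)⁻¹) * Q, ?_, ?_⟩
    · refine Polynomial.monic_of_natDegree_le_of_coeff_eq_one m
        ((Polynomial.natDegree_C_mul_le _ _).trans h1) ?_
      rw [Polynomial.coeff_C_mul, h2, h3, ← C_mul, inv_mul_cancel₀ hu, C_1]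
    · rw [Polynomial.eval₂_mul, hQ0, mul_zero]
  have hmap : ∀ c : MvPolynomial (Fin r') ℂ, (ph I y').toRingHom.IsIntegralElem (ph I y' c) :=
    fun c => (ph I y').toRingHom.isIntegralElem_map
  have hyall : ∀ i, (ph I y').toRingHom.IsIntegralElem (Ideal.Quotient.mk I (y i)) := by
    intro i
    rcases Fin.eq_self_or_eq_succAbove k i with rfl | ⟨i', rfl⟩
    · rw [hyk]
      exact (hmap _).mul _ hτi
    · rw [hyi]
      exact (hmap _).add _ ((hmap _).mul _ hτi)
  refine ⟨y', hy', fun j => trans _ (ph I y).toRingHom (fun c => ?_) (hint j)⟩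
  show (ph I y').toRingHom.IsIntegralElem (ph I y c)
  induction c using MvPolynomial.induction_on with
  | C c =>
    rw [ph_eq, aeval_C]
    have := hmap (C c)
    rwa [hC] at this
  | add c d hc hd =>
    rw [map_add]
    exact hc.add _ hd
  | mul_X c i hc =>
    rw [map_mul]
    have h10 : ph I y (X i) = Ideal.Quotient.mk I (y i) := by rw [ph_eq, aeval_X]
    rw [h10]
    exact hc.mul _ (hyall i)

end NoeAux

open NoeAux in
/-- **Linear Noether normalization.** -/
theorem lNoe : S_Noe := by
  classical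
  intro N I hI hh
  have hex : ∃ r, PP N I r := ⟨N + 1, PP_top N I⟩
  obtain ⟨y, hy, hint⟩ := Nat.find_spec hex
  refine ⟨Nat.find hex, y, hy, ?_, fun j => ?_⟩
  · rw [algebraicIndependent_iff]
    intro q hq
    by_contra hq0
    have h1 : aeval y q ∈ I := by
      have h2 : ph I y q = 0 := hq
      rw [ph_eq] at h2
      exact Ideal.Quotient.eq_zero_iff_mem.1 h2
    obtain ⟨r', hr', hP⟩ := drop hI hh hy hint hq0 h1
    exact Nat.find_min hex hr' hP
  · obtain ⟨P, hP, hP0⟩ := hint j
    let m := P.natDegree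
    have h1 : X j ^ m + ∑ k ∈ Finset.range m, aeval y (P.coeff k) * X j ^ k ∈ I := by
      rw [← Ideal.Quotient.eq_zero_iff_mem, map_add, map_sum, ← hP0,
        Polynomial.eval₂_eq_sum_range, Finset.sum_range_succ]
      refine (add_comm _ _).trans ?_
      congr 1
      · refine Finset.sum_congr rfl fun k _ => ?_
        rw [map_mul, ← ph_eq, map_pow]
        rfl
      · rw [hP.coeff_natDegree, map_one, one_mul, map_pow]
    refine ⟨m, fun k => homogeneousComponent (m - k) (P.coeff k), fun k _ =>
      homogeneousComponent_isHomogeneous _ _, ?_⟩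
    have h2 := hh _ h1 m
    have h3 : ∀ k, ((X j : Sx N) ^ k).IsHomogeneous k := by
      intro k
      have := (isHomogeneous_X ℂ j).pow k
      rwa [one_mul] at this
    rw [map_add, map_sum, homogeneousComponent_of_mem (h3 m), if_pos rfl] at h2
    have h4 : ∑ k ∈ Finset.range m, homogeneousComponent m (aeval y (P.coeff k) * X j ^ k) =
        ∑ k ∈ Finset.range m, aeval y (homogeneousComponent (m - k) (P.coeff k)) * X j ^ k := by
      refine Finset.sum_congr rfl fun k hk => ?_
      rw [comp_mul (h3 k) (Finset.mem_range.1 hk).le, comp_aeval hy]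
    rwa [h4] at h2

end Pool.Agent.Lib.MP_776403_ag.SD
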