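import Pool.Agent.Lib.MP_776403_ag.SD.L.SpecC2
import Pool.Agent.Lib.MP_776403_ag.SD.Bas

/-!
# THEOREM SD, part L: the cone of the lines through a general point, assembly
-/

set_option autoImplicit false

open MvPolynomial

noncomputable section

namespace Pool.Agent.Lib.MP_776403_ag.SD

namespace CnAux

theorem eval_aeval {N r : ℕ} (x : Vx N) (z : Fin (r + 1) → Sx N) (q : Sx r) :
    eval x (aeval z q) = eval (fun i => eval x (z i)) q := by
  induction q using MvPolynomial.induction_on with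
  | C a => simp
  | add p q hp hq => simp only [map_add, hp, hq]
  | mul_X p i hp => rw [map_mul, map_mul, map_mul, hp, aeval_X, eval_X]

/-- linear forms are linear -/
theorem eval_lin {N : ℕ} {z : Sx N} (hz : z.IsHomogeneous 1) (x v : Vx N) (s t : ℂ) :
    eval (s • x + t • v) z = s * eval x z + t * eval v z := by
  rw [← lin_hom hz x v s t, Finset.sum_range_succ, Finset.sum_range_one]
  have h0 : (lin x v z).coeff 0 = eval x z := by
    rw [Polynomial.coeff_zero_eq_eval_zero, lin_eval, zero_smul, add_zero]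
  have h1 : (lin x v z).coeff 1 = eval v z := by
    have h2 := lin_hom hz x v 0 1
    rw [Finset.sum_range_succ, Finset.sum_range_one] at h2
    simpa using h2
  rw [h0, h1]
  simp [mul_comm]

/-- the image of a point of `X` is not zero and lies on the hypersurface -/
theorem image {N r : ℕ} {I : Ideal (Sx N)} (M : Model I r) {x : Vx N} (hx : x ∈ zer I)
    (hx0 : x ≠ 0) :
    (fun i => eval x (M.z i)) ≠ 0 ∧ eval (fun i => eval x (M.z i)) M.F = 0 := by
  set x' : Vx r := fun i => eval x (M.z i) with hx'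
  have hev : ∀ q : Sx r, eval x (aeval M.z q) = eval x' q := fun q => eval_aeval x M.z q
  refine ⟨?_, ?_⟩
  · intro h0
    refine hx0 (funext fun j => ?_)
    have h := hx _ (M.hp j)
    rw [map_add, map_pow, map_sum, eval_X, Finset.sum_eq_zero, add_zero] at h
    · exact eq_zero_of_pow_eq_zero h
    · intro k hk
      have hk := Finset.mem_range.mp hk
      have h1 := eval_smul_form (M.phom j k hk) 0 x'
      rw [zero_smul, zero_pow (by lia), zero_mul] at h1
      rw [map_mul, hev, h0, h1, zero_mul]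
  · rw [← hev]
    exact hx _ ((M.mem M.F).mpr dvd_rfl)

/-- the model -/
theorem model (hNoe : S_Noe) (hRank : S_Rank) (hDimS : S_DimS) (hModel : S_Model)
    {N c D : ℕ} {I : Ideal (Sx N)} (hcN : c ≤ N) (hP : I.IsPrime) (hH : IsHom I)
    (hS : Smooth I c) (hne : ∃ y ∈ zer I, y ≠ 0)
    (hfin : ∀ m : ℕ, Module.finrank ℂ (gr I m) ≤ D * Nat.choose (m + (N - c)) (N - c)) :
    ∃ M : Model I (N - c + 1), M.ρ ≤ D := by
  obtain ⟨r, y, hy1, hy2, hy3⟩ := hNoe N I hP hH
  have hr : N + 1 - c ≤ r := by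
    refine hDimS N c I hP hH hS hne r y (fun j => ?_)
    obtain ⟨m, p, _, h⟩ := hy3 j
    exact ⟨m, p, h⟩
  have hr' : (N - c) + 1 ≤ r := by omega
  have hRk := hRank N I D (N - c) hfin r y hy1 hr'
  have hre : r = (N - c) + 1 := by
    refine (hRk 1 (fun _ => 1) ?_).2 le_rfl
    intro b hb
    have h1 : aeval y (b 0) ∈ I := by simpa using hb
    have h2 : aeval (fun i => Ideal.Quotient.mk I (y i)) (b 0) = 0 := by
      have h3 : Ideal.Quotient.mkₐ ℂ I (aeval y (b 0)) = 0 := by
        rw [Ideal.Quotient.mkₐ_eq_mk]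
        exact Ideal.Quotient.eq_zero_iff_mem.2 h1
      rw [← AlgHom.comp_apply, MvPolynomial.comp_aeval] at h3
      exact h3
    have h4 : b 0 = 0 := (injective_iff_map_eq_zero _).1 hy2 _ h2
    funext i
    have : i = 0 := Subsingleton.elim _ _
    rw [this, h4]
    rfl
  subst hre
  exact hModel N I hP hH _ y D hy1 hy2 hy3 (fun ρ g hb => (hRk ρ g hb).1)

end CnAux

/-- (Cn) the cone of the lines through a general point -/
theorem lCn : S_Noe → S_Rank → S_DimS → S_Model → S_CnF → S_CnL → S_Mono → S_Cn := by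
  intro hNoe hRank hDimS hModel hCnF hCnL hMono N c D I hcN hP hH hS hne hfin
  obtain ⟨M, hM⟩ := CnAux.model hNoe hRank hDimS hModel hcN hP hH hS hne hfin
  refine ⟨aeval M.z M.g, M.gI, fun x hx hx0 hg => ?_⟩
  obtain ⟨hx'0, hF0⟩ := CnAux.image M hx hx0
  obtain ⟨P', hP'1, hP'2, hP'3, hP'4, hP'5⟩ := hCnF _ M.ρ M.F M.Fhom _ hx'0 hF0
  have hD : DimGe P' (N - c + 2 - D) := by
    have h1 : DimGeG P' (N - c + 1 + 1 - M.ρ) := hP'3
    exact hMono _ P' _ (N - c + 2 - D) (by omega) h1
  exact hCnL N I hP hH _ M x hx hx0 hg _ P' hP'1 hP'2 hD hP'4 hP'5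

/-- (Cn2) every line through a general point is in a large cone of lines -/
theorem lCn2 : S_Noe → S_Rank → S_DimS → S_Model → S_CnF2 → S_CnL2 → S_Mono → S_Cn2 := by
  intro hNoe hRank hDimS hModel hCnF hCnL hMono N c D I hcN hP hH hS hne hfin
  obtain ⟨M, hM⟩ := CnAux.model hNoe hRank hDimS hModel hcN hP hH hS hne hfin
  refine ⟨aeval M.z M.g, M.gI, fun x hx hx0 hg v₁ hv₁ => ?_⟩
  obtain ⟨hx'0, hF0⟩ := CnAux.image M hx hx0
  have hline : ∀ s t : ℂ, eval (s • (fun i => eval x (M.z i)) +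
      t • (fun i => eval v₁ (M.z i))) M.F = 0 := by
    intro s t
    have h1 : eval (fun i => eval (s • x + t • v₁) (M.z i)) M.F = 0 := by
      rw [← CnAux.eval_aeval]
      exact hv₁ s t _ ((M.mem M.F).mpr dvd_rfl)
    have h2 : (fun i => eval (s • x + t • v₁) (M.z i)) = s • (fun i => eval x (M.z i)) +
        t • (fun i => eval v₁ (M.z i)) := by
      funext i
      simp only [Pi.add_apply, Pi.smul_apply, smul_eq_mul]
      exact CnAux.eval_lin (M.zhom i) x v₁ s t
    rw [← h2]
    exact h1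
  obtain ⟨P', hP'1, hP'2, hP'v, hP'3, hP'4, hP'5⟩ :=
    hCnF _ M.ρ M.F M.Fhom _ hx'0 hF0 (fun i => eval v₁ (M.z i)) hline
  have hD : DimGe P' (N - c + 2 - D) := by
    have h1 : DimGeG P' (N - c + 1 + 1 - M.ρ) := hP'3
    exact hMono _ P' _ (N - c + 2 - D) (by omega) h1
  exact hCnL N I hP hH _ M x hx hx0 hg _ P' hP'1 hP'2 hD hP'4 hP'5 v₁ hv₁ hP'v

end Pool.Agent.Lib.MP_776403_ag.SD

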