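import Pool.Agent.Lib.MP_776403_ag.SD.SpecL
import Pool.Agent.Lib.MP_776403_ag.SD.SpecD
import Pool.Agent.Lib.MP_776403_ag.SD.SpecB

/-!
# THEOREM SD, part L: the cone of the lines of `X` through a general point
-/

set_option autoImplicit false

open MvPolynomial

noncomputable section

namespace Pool.Agent.Lib.MP_776403_ag.SD

/-- (CnF) A cone of lines through a point of a hypersurface of degree `ρ`, of dimension at least
`r + 1 - ρ` (affine cone).

PROOF.  `λ` a vector with `∑ λ_i x'_i = 1`, `ℓ = ∑ C λ_i X_i`; `J₀` = ideal of `Sx r` generated by the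
`(linS x' F).coeff (j + 1)`, `j : Fin ρ` (homogeneous of degree `j + 1`, `S_LinS`), and `ℓ`: `ρ + 1`
generators, all zero at `0`.  `S_Krull` (weights `1`, `z = 0`, `g = ρ + 1`; `IsWH (fun _ => 1)` is
`IsHom`, `weightedHomogeneousComponent_one`): a homogeneous prime `P₀ ≥ J₀`, `P₀ ≤ ptI 0`, with `r - ρ`
algebraically independent elements of `Sx r / P₀`.  For `v₀ ∈ zer P₀`: `ℓ (v₀) = 0`, and
`F (s x' + t v₀) = 0` for all `s, t` (`lin x' v₀ F = 0`: its coefficients are the values at `v₀` of those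
of `linS x' F`; the constant one is `F (x') = 0`, those above `ρ` vanish; `S_LinB`).
`Z = {v₀ + s x' | v₀ ∈ zer P₀, s ∈ ℂ}`.  `φ : Sx r → (Sx r / P₀)[s]`, `X_i ↦ C (mk X_i) + C (x'_i) s`,
`P = ker φ`: prime (the target is a domain).  `Q ∈ P` iff for all `v₀ ∈ zer P₀` `Q (v₀ + s x') = 0` for all
`s` (a polynomial in `s` with coefficients in `Sx r`, whose coefficients are in `P₀` iff they vanish on
`zer P₀`: `S_Null`) iff `Q` vanishes on `Z`.  So: `P` is homogeneous (`Z` is stable under multiplication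
by scalars: if `Q` vanishes on `Z` then `∑_m a^m Q_m (z) = Q (a z) = 0` for all `a`, so all `Q_m (z) = 0`);
`P` is stable under `Q ↦ Q (· + s x')`, so `zer P` is stable under `v ↦ v + s x'`; the polynomials
`Q (v) = F (s x' + t v)` vanish on `Z`, so they are in `P` and vanish on `zer P`.
Dimension: `φ (ℓ) = s` (`ℓ ∈ P₀`, `ℓ (x') = 1`) and `φ (X_i - C (x'_i) ℓ) = C (mk X_i)`: `φ` is surjective,
`Sx r / P ≅ (Sx r / P₀)[s]`, which contains `r - ρ + 1` algebraically independent elements (the given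
ones and `s`; if `ρ > r` there is nothing to prove, `DimGe P 0`).  `S_TB` (family `mk X_i`, `adjoin = ⊤`):
`r + 1 - ρ` of the coordinates are independent modulo `P`. -/
def S_CnF : Prop :=
  ∀ (r ρ : ℕ) (F : Sx r), F.IsHomogeneous ρ → ∀ x' : Vx r, x' ≠ 0 → eval x' F = 0 →
    ∃ P : Ideal (Sx r), P.IsPrime ∧ IsHom P ∧ DimGe P (r + 1 - ρ) ∧
      (∀ v ∈ zer P, ∀ s : ℂ, v + s • x' ∈ zer P) ∧
      ∀ v ∈ zer P, ∀ s t : ℂ, eval (s • x' + t • v) F = 0

/-- (CnL) Lifting the cone.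

PROOF.  `x' i = eval x (z i)`, `a = eval x' g ≠ 0`.  `L_j ∈ Sx r` the linear form
`a⁻² (a ∑_i C (eval x' (pderiv i (G j))) X_i - C (eval x' (G j)) ∑_i C (eval x' (pderiv i g)) X_i)`.
CLAIM A.  Let `v' : Vx r` with `F (s x' + t v') = 0` for all `s, t`; put `v j = eval v' (L_j)`.  Then
`x + t v ∈ zer I` for all `t`, and `eval v (z i) = v' i`.  (Proof of `S_Lift`, see the docstring in
`SpecL.lean` and the file `L/Lift.lean`; the independence of `x'`, `v'` is not needed: for `q` with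
`aeval z q ∈ I` we have `lin x' v' q = 0`; `γ = lin x' v' g`, `γ(0) = a`, `Γ_j = lin x' v' (G j) = γ ξ_j`,
`ξ_j = x_j + v_j t` with `v_j = (Γ_j'(0) γ(0) - Γ_j(0) γ'(0)) / γ(0)^2 = L_j (v')`.)
CLAIM B.  `L_j (x') = x_j`: Claim A for `v' = x'` (`F ((s + t) x') = 0` as `F (x') = 0`, `mem`, `x ∈ zer I`);
`g ((1+t) x') ξ_j(t) = G_j ((1+t) x')`, and `hG` at the point `(1+t) x ∈ zer I`, whose image under `z` is
`(1+t) x'`, gives `g ((1+t) x') (1+t) x_j = G_j ((1+t) x')`; so `ξ_j = (1+t) x_j`.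
`Λ : Sx N → Sx r` the algebra homomorphism `X_j ↦ L_j` (`eval v' (Λ Q) = eval (L (v')) Q`), `P = Λ⁻¹ (P')`: prime,
homogeneous (`Λ` commutes with `homogeneousComponent`: `L_j` linear).
(1) For `Q ∈ I` and `n`: `Λ ((linS x Q).coeff n)` vanishes on `zer P'` (Claim A and `S_LinS`, `S_LinB`:
`(lin x (L v') Q).coeff n = 0`), so it is in `P'` (`S_Null`), i.e. `(linS x Q).coeff n ∈ P`.  For a form
`Q ∈ I` of degree `n` this coefficient is `Q`: `I ≤ P` (components).  For `v ∈ zer P`: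
`lin x v Q = 0` for `Q ∈ I`, so `s x + t v ∈ zer I` (`S_LinB` for forms, components).
(2) `P` is stable under `Q ↦ Q (· + s x)`: for `v' ∈ zer P'`: `Q (L (v') + s x) = Q (L (v' + s x'))` (Claim B)
`= 0`, and `S_Null` for `P'`.  So `zer P` is stable under `v ↦ v + s x`.
(3) `Λ` induces an injection `Sx N / P → Sx r / P'`; it is surjective, because `X_i - Λ (z i)` vanishes
on `zer P'` (Claim A; `z i` is a linear form) and so is in `P'`.  Pull back the `D` independent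
coordinates and use `S_TB`. -/
def S_CnL : Prop :=
  ∀ (N : ℕ) (I : Ideal (Sx N)), I.IsPrime → IsHom I → ∀ (r : ℕ) (M : Model I r),
    ∀ x ∈ zer I, x ≠ 0 → eval x (aeval M.z M.g) ≠ 0 → ∀ (D : ℕ) (P' : Ideal (Sx r)),
    P'.IsPrime → IsHom P' → DimGe P' D →
    (∀ v ∈ zer P', ∀ s : ℂ, v + s • (fun i => eval x (M.z i)) ∈ zer P') →
    (∀ v ∈ zer P', ∀ s t : ℂ, eval (s • (fun i => eval x (M.z i)) + t • v) M.F = 0) →
    ∃ P : Ideal (Sx N), P.IsPrime ∧ IsHom P ∧ I ≤ P ∧ DimGe P D ∧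
      (∀ v ∈ zer P, ∀ s : ℂ, v + s • x ∈ zer P) ∧
      ∀ v ∈ zer P, ∀ s t : ℂ, s • x + t • v ∈ zer I

/-- (Cn) THE CONE OF THE LINES THROUGH A GENERAL POINT.  `X` of degree `≤ D`: through a general point
there is a cone of lines of dimension `≥ n + 2 - D` (affine cone), `n = N - c`.

PROOF (as `lCov` in `L/Cov.lean`).  `e = N - c`.  `S_Noe`: `r`, `y`.  `S_DimS`: `e + 1 ≤ r`
(`c ≤ N`).  `S_Rank` with `ρ = 1`, `g = 1` (`y` independent): `r = e + 1`.  `S_Rank` and `S_Model`: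
`M : Model I r` with `M.ρ ≤ D`.  `g = aeval M.z M.g ∉ I`.  For `x`: `x' i = eval x (M.z i)` is not `0`
(otherwise `x_j^(m j) = 0` for all `j` by `M.hp`), `M.F (x') = 0` (`M.mem`).  `S_CnF` for `M.F`, `x'`: `P'` of
dimension `≥ r + 1 - M.ρ ≥ N - c + 2 - D` (`S_Mono` for `DimGe`); `S_CnL`. -/
def S_Cn : Prop :=
  ∀ (N c D : ℕ) (I : Ideal (Sx N)), c ≤ N → I.IsPrime → IsHom I → Smooth I c →
    (∃ y ∈ zer I, y ≠ 0) →
    (∀ m : ℕ, Module.finrank ℂ (gr I m) ≤ D * Nat.choose (m + (N - c)) (N - c)) →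
    ∃ g : Sx N, g ∉ I ∧ ∀ x ∈ zer I, x ≠ 0 → eval x g ≠ 0 →
      ∃ P : Ideal (Sx N), P.IsPrime ∧ IsHom P ∧ I ≤ P ∧ DimGe P (N - c + 2 - D) ∧
        (∀ v ∈ zer P, ∀ s : ℂ, v + s • x ∈ zer P) ∧
        ∀ v ∈ zer P, ∀ s t : ℂ, s • x + t • v ∈ zer I

end Pool.Agent.Lib.MP_776403_ag.SD
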