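import Pool.Agent.Lib.MP_776403_ag.SD.L.SpecC2
import Pool.Agent.Lib.MP_776403_ag.SD.Bas

/-!
# THEOREM SD, part L: a cone of lines through a point of a hypersurface (CnF)
-/

set_option autoImplicit false

open MvPolynomial

noncomputable section

namespace Pool.Agent.Lib.MP_776403_ag.SD

namespace CnFAux

variable {r : ℕ}

/-- An ideal generated by forms is homogeneous. -/
private theorem span_hom (s : Set (Sx r)) (hs : ∀ f ∈ s, ∃ m : ℕ, f.IsHomogeneous m) :
    IsHom (Ideal.span s) := by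
  intro F hF m
  let _ := MvPolynomial.gradedAlgebra (σ := Fin (r + 1)) (R := ℂ)
  have h1 : (Ideal.span s).IsHomogeneous (homogeneousSubmodule (Fin (r + 1)) ℂ) := by
    refine Ideal.homogeneous_span _ _ ?_
    intro f hf
    obtain ⟨n, hn⟩ := hs f hf
    exact ⟨n, hn⟩
  exact homogeneousComponent_mem_of_mem h1 hF m

private theorem eval_smul_sum (F : Sx r) (a : ℂ) (v : Vx r) :
    eval (a • v) F = ∑ m ∈ Finset.range (F.totalDegree + 1),
      a ^ m * eval v (homogeneousComponent m F) := by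
  conv_lhs => rw [← sum_homogeneousComponent F, map_sum]
  exact Finset.sum_congr rfl fun m _ =>
    eval_smul_form (homogeneousComponent_isHomogeneous m F) a v

private theorem smul_mem_zer {P : Ideal (Sx r)} (hP : IsHom P) {v : Vx r} (hv : v ∈ zer P)
    (a : ℂ) : a • v ∈ zer P := by
  intro F hF
  rw [eval_smul_sum]
  exact Finset.sum_eq_zero fun m _ => by rw [hv _ (hP F hF m), mul_zero]

/-- A polynomial which vanishes on a line through the origin. -/
private theorem comp_zero {F : Sx r} {v : Vx r} (h : ∀ a : ℂ, eval (a • v) F = 0) (m : ℕ) :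
    eval v (homogeneousComponent m F) = 0 := by
  by_cases hm : m < F.totalDegree + 1
  · have h1 : (∑ n ∈ Finset.range (F.totalDegree + 1),
        Polynomial.C (eval v (homogeneousComponent n F)) * Polynomial.X ^ n : Polynomial ℂ) = 0 := by
      refine poly_ext fun a => ?_
      rw [Polynomial.eval_finsetSum, Polynomial.eval_zero, ← h a, eval_smul_sum]
      refine Finset.sum_congr rfl fun n _ => ?_
      rw [Polynomial.eval_mul, Polynomial.eval_C, Polynomial.eval_pow, Polynomial.eval_X, mul_comm]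
    have h2 := congrArg (fun q : Polynomial ℂ => q.coeff m) h1
    simp only [Polynomial.finsetSum_coeff, Polynomial.coeff_C_mul_X_pow, Polynomial.coeff_zero]
      at h2
    rw [Finset.sum_ite_eq, if_pos (Finset.mem_range.2 hm)] at h2
    exact h2
  · rw [homogeneousComponent_eq_zero _ _ (by omega), map_zero]

/-- The map `Q ↦ Q (· + s x')`, `s` a variable. -/
private def psi (x' : Vx r) : Sx r →ₐ[ℂ] Polynomial (Sx r) :=
  aeval fun i => Polynomial.C (X i) + Polynomial.C (C (x' i)) * Polynomial.X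

/-- The same modulo `P₀`. -/
private def phi (P₀ : Ideal (Sx r)) (x' : Vx r) : Sx r →ₐ[ℂ] Polynomial (Sx r ⧸ P₀) :=
  aeval fun i => Polynomial.C (Ideal.Quotient.mk P₀ (X i)) +
    Polynomial.C (Ideal.Quotient.mk P₀ (C (x' i))) * Polynomial.X

private theorem phi_eq (P₀ : Ideal (Sx r)) (x' : Vx r) (Q : Sx r) :
    phi P₀ x' Q = (psi x' Q).map (Ideal.Quotient.mk P₀) := by
  have h1 : phi P₀ x' = (Polynomial.mapAlgHom (Ideal.Quotient.mkₐ ℂ P₀)).comp (psi x') := by
    refine MvPolynomial.algHom_ext fun i => ?_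
    rw [AlgHom.comp_apply]
    unfold phi psi
    rw [aeval_X, aeval_X, map_add, map_mul]
    simp [Polynomial.coe_mapAlgHom]
    rfl
  rw [h1, AlgHom.comp_apply, Polynomial.coe_mapAlgHom]
  rfl

private theorem psi_eval (x' v : Vx r) (Q : Sx r) :
    (psi x' Q).map (eval v) = lin v x' Q := by
  have h1 : (Polynomial.mapAlgHom (MvPolynomial.aeval v : Sx r →ₐ[ℂ] ℂ)).comp (psi x') =
      lin v x' := by
    refine MvPolynomial.algHom_ext fun i => ?_
    rw [AlgHom.comp_apply]
    unfold psi lin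
    rw [aeval_X, aeval_X, map_add, map_mul]
    simp [Polynomial.coe_mapAlgHom]
  rw [← h1, AlgHom.comp_apply, Polynomial.coe_mapAlgHom]
  congr 1

/-- The criterion. -/
private theorem mem_ker (hN : S_Null) {P₀ : Ideal (Sx r)} (hP : P₀.IsPrime) (hh : IsHom P₀)
    (x' : Vx r) (Q : Sx r) :
    Q ∈ RingHom.ker (phi P₀ x') ↔ ∀ v ∈ zer P₀, ∀ s : ℂ, eval (v + s • x') Q = 0 := by
  have h0 : Q ∈ RingHom.ker (phi P₀ x') ↔ ∀ n : ℕ, (psi x' Q).coeff n ∈ P₀ := by
    rw [RingHom.mem_ker, phi_eq, Polynomial.ext_iff]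
    refine forall_congr' fun n => ?_
    rw [Polynomial.coeff_map, Polynomial.coeff_zero, Ideal.Quotient.eq_zero_iff_mem]
  have h1 : ∀ (v : Vx r) (n : ℕ), eval v ((psi x' Q).coeff n) = (lin v x' Q).coeff n := by
    intro v n
    rw [← psi_eval, Polynomial.coeff_map]
  rw [h0]
  constructor
  · intro h v hv s
    rw [← lin_eval]
    have h2 : lin v x' Q = 0 := by
      ext n
      rw [← h1, hv _ (h n), Polynomial.coeff_zero]
    rw [h2, Polynomial.eval_zero]
  · intro h n
    refine (hN r P₀ hP hh).1 _ fun v hv => ?_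
    rw [h1]
    have h2 : lin v x' Q = 0 := by
      refine poly_ext fun s => ?_
      rw [lin_eval, h v hv s, Polynomial.eval_zero]
    rw [h2, Polynomial.coeff_zero]

/-! ### The dimension -/

/-- `A` and a variable. -/
private theorem indep_poly {A : Type} [CommRing A] [Algebra ℂ A] {n : ℕ} {y : Fin n → A}
    (hy : AlgebraicIndependent ℂ y) :
    AlgebraicIndependent ℂ
      (Fin.cons Polynomial.X (fun k => Polynomial.C (y k)) : Fin (n + 1) → Polynomial A) := by
  have h1 : (aeval (Fin.cons Polynomial.X (fun k => Polynomial.C (y k)) :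
      Fin (n + 1) → Polynomial A) : MvPolynomial (Fin (n + 1)) ℂ →ₐ[ℂ] Polynomial A) =
      (Polynomial.mapAlgHom (aeval y)).comp (finSuccEquiv ℂ n).toAlgHom := by
    refine MvPolynomial.algHom_ext fun i => ?_
    rw [AlgHom.comp_apply, aeval_X]
    refine Fin.cases ?_ (fun k => ?_) i
    · change Polynomial.X = (Polynomial.mapAlgHom (aeval y)) (finSuccEquiv ℂ n (X 0))
      rw [finSuccEquiv_X_zero, Polynomial.coe_mapAlgHom, Polynomial.map_X]
    · change Polynomial.C (y k) = (Polynomial.mapAlgHom (aeval y)) (finSuccEquiv ℂ n (X k.succ))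
      rw [finSuccEquiv_X_succ, Polynomial.coe_mapAlgHom, Polynomial.map_C]
      congr 1
      exact (aeval_X y k).symm
  unfold AlgebraicIndependent
  rw [h1]
  refine Function.Injective.comp (g := Polynomial.mapAlgHom (aeval y)) ?_
    (finSuccEquiv ℂ n).injective
  rw [Polynomial.coe_mapAlgHom]
  exact Polynomial.map_injective _ hy

private theorem phi_surj {P₀ : Ideal (Sx r)} {x' : Vx r} {i₀ : Fin (r + 1)} (hi : x' i₀ ≠ 0)
    (hl : C (x' i₀)⁻¹ * X i₀ ∈ P₀) : Function.Surjective (phi P₀ x') := by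
  have hX : phi P₀ x' (C (x' i₀)⁻¹ * X i₀) = Polynomial.X := by
    rw [phi_eq]
    unfold psi
    rw [map_mul, aeval_X, aeval_C, mul_add, Polynomial.map_add]
    have h1 : (algebraMap ℂ (Polynomial (Sx r))) (x' i₀)⁻¹ = Polynomial.C (C (x' i₀)⁻¹) := rfl
    rw [h1, ← Polynomial.C_mul, ← mul_assoc, ← Polynomial.C_mul, ← C_mul, inv_mul_cancel₀ hi,
      Polynomial.map_C, Ideal.Quotient.eq_zero_iff_mem.2 hl]
    simp
  have hC : ∀ i, phi P₀ x' (X i - C (x' i) * (C (x' i₀)⁻¹ * X i₀)) =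
      Polynomial.C (Ideal.Quotient.mk P₀ (X i)) := by
    intro i
    rw [map_sub, map_mul, hX]
    unfold phi
    rw [aeval_X, aeval_C]
    have h1 : (algebraMap ℂ (Polynomial (Sx r ⧸ P₀))) (x' i) =
      Polynomial.C (Ideal.Quotient.mk P₀ (C (x' i))) := rfl
    rw [h1]
    ring
  have hA : ∀ Q : Sx r, ∃ R, phi P₀ x' R = Polynomial.C (Ideal.Quotient.mk P₀ Q) := by
    intro Q
    induction Q using MvPolynomial.induction_on with
    | C a =>
      refine ⟨C a, ?_⟩
      unfold phi
      rw [aeval_C]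
      rfl
    | add p q hp hq =>
      obtain ⟨R, hR⟩ := hp
      obtain ⟨S, hS⟩ := hq
      exact ⟨R + S, by rw [map_add, map_add, Polynomial.C_add, hR, hS]⟩
    | mul_X p i hp =>
      obtain ⟨R, hR⟩ := hp
      exact ⟨R * (X i - C (x' i) * (C (x' i₀)⁻¹ * X i₀)), by
        rw [map_mul (phi P₀ x'), map_mul (Ideal.Quotient.mk P₀), Polynomial.C_mul, hR, hC]⟩
  intro p
  induction p using Polynomial.induction_on' with
  | add p q hp hq =>
    obtain ⟨R, hR⟩ := hp
    obtain ⟨S, hS⟩ := hq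
    exact ⟨R + S, by rw [map_add, hR, hS]⟩
  | monomial n a =>
    obtain ⟨Q, rfl⟩ := Ideal.Quotient.mk_surjective a
    obtain ⟨R, hR⟩ := hA Q
    refine ⟨R * (C (x' i₀)⁻¹ * X i₀) ^ n, ?_⟩
    rw [map_mul (phi P₀ x'), map_pow (phi P₀ x'), hR, hX, Polynomial.C_mul_X_pow_eq_monomial]

end CnFAux

open CnFAux

theorem lCnF2 : S_Krull → S_Null → S_LinS → S_LinB → S_TB → S_CnF2 := by
  intro hK hN hLS hLB hTB r ρ F hF x' hx' hFx v₁ hv₁
  obtain ⟨i₀, hi₀⟩ : ∃ i, x' i ≠ 0 := by
    by_contra hc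
    push Not at hc
    exact hx' (funext hc)
  -- the point `z = v₁ - λ(v₁) x'`
  obtain ⟨z, hz⟩ : ∃ z : Vx r, z = v₁ - ((x' i₀)⁻¹ * v₁ i₀) • x' := ⟨_, rfl⟩
  have hzv : z + ((x' i₀)⁻¹ * v₁ i₀) • x' = v₁ := by rw [hz, sub_add_cancel]
  have hzl : eval z (C (x' i₀)⁻¹ * X i₀ : Sx r) = 0 := by
    rw [eval_mul, eval_C, eval_X, hz, Pi.sub_apply, Pi.smul_apply, smul_eq_mul]
    field_simp
    ring
  have hzF : lin x' z F = 0 := by
    refine poly_ext fun t => ?_
    rw [lin_eval, Polynomial.eval_zero]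
    have h1 := hv₁ (1 - t * ((x' i₀)⁻¹ * v₁ i₀)) t
    have h2 : (1 - t * ((x' i₀)⁻¹ * v₁ i₀)) • x' + t • v₁ = x' + t • z := by
      rw [hz]
      module
    rwa [h2] at h1
  -- the generators
  have hb : ∃ b : Fin (ρ + 1) → Sx r, (∀ j, ∃ m, 1 ≤ m ∧ (b j).IsHomogeneous m) ∧
      (∀ j, j < ρ → ∃ k, b k = (linS x' F).coeff (j + 1)) ∧
      (∃ k, b k = C (x' i₀)⁻¹ * X i₀) ∧ ∀ j, eval z (b j) = 0 := by
    refine ⟨Fin.snoc (α := fun _ => Sx r) (fun j : Fin ρ => (linS x' F).coeff (j.1 + 1))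
      (C (x' i₀)⁻¹ * X i₀), ?_, ?_, ?_, ?_⟩
    · intro j
      refine Fin.lastCases ?_ (fun k => ?_) j
      · rw [Fin.snoc_last]
        refine ⟨1, le_refl 1, ?_⟩
        have h1 := (isHomogeneous_C (Fin (r + 1)) (x' i₀)⁻¹).mul (isHomogeneous_X ℂ i₀)
        simpa using h1
      · rw [Fin.snoc_castSucc]
        exact ⟨k.1 + 1, by omega, (hLS r x' F (k.1 + 1)).2.2.1⟩
    · intro j hj
      exact ⟨Fin.castSucc ⟨j, hj⟩, by rw [Fin.snoc_castSucc]⟩
    · exact ⟨Fin.last ρ, by rw [Fin.snoc_last]⟩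
    · intro j
      refine Fin.lastCases ?_ (fun k => ?_) j
      · rw [Fin.snoc_last]
        exact hzl
      · rw [Fin.snoc_castSucc, (hLS r x' F (k.1 + 1)).2.1 z, hzF, Polynomial.coeff_zero]
  obtain ⟨b, hb1, hb2, ⟨k₀, hb3⟩, hb4⟩ := hb
  have hJ0 : IsHom (Ideal.span (Set.range b)) := by
    refine span_hom _ ?_
    rintro _ ⟨j, rfl⟩
    obtain ⟨m, -, hm⟩ := hb1 j
    exact ⟨m, hm⟩
  obtain ⟨P₀, hP0, hJP, hPz, hPW, y, hy⟩ := hK (Fin (r + 1)) (fun _ => 1)
    (Ideal.span (Set.range b)) z (ρ + 1) b hJ0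
    (by
      refine Ideal.span_le.2 ?_
      rintro _ ⟨j, rfl⟩
      exact hb4 j)
    (fun i => Ideal.subset_span ⟨i, rfl⟩) le_sup_left
  have hPH : IsHom P₀ := hPW
  have hbP : ∀ j, b j ∈ P₀ := fun j => hJP (Ideal.subset_span ⟨j, rfl⟩)
  have hl : C (x' i₀)⁻¹ * X i₀ ∈ P₀ := hb3 ▸ hbP k₀
  -- Claim A
  have hA : ∀ v ∈ zer P₀, ∀ s t : ℂ, eval (s • x' + t • v) F = 0 := by
    intro v hv s t
    have h1 : lin x' v F = 0 := by
      ext n
      rw [← (hLS r x' F n).2.1 v, Polynomial.coeff_zero]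
      rcases Nat.eq_zero_or_pos n with h2 | h2
      · subst h2
        rw [(hLS r x' F 0).2.2.2.2, hFx, eval_C]
      · by_cases h3 : n ≤ ρ
        · obtain ⟨k, hk⟩ := hb2 (n - 1) (by omega)
          rw [show n - 1 + 1 = n by omega] at hk
          rw [← hk]
          exact hv _ (hbP k)
        · rw [((hLS r x' F n).2.2.2.1 ρ hF).2 (by omega), map_zero]
    rw [((hLB r x' v F).2.1 ρ hF).2.2 s t, h1]
    simp
  have hM := mem_ker hN hP0 hPH x'
  have hzP : z ∈ zer P₀ := fun Q hQ => hPz hQ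
  refine ⟨RingHom.ker (phi P₀ x'), RingHom.ker_isPrime _, ?_, ?_, ?_, ?_, ?_⟩
  · intro Q hQ m
    rw [hM]
    intro v hv s
    refine comp_zero (fun a => ?_) m
    rw [smul_add, smul_smul]
    exact (hM Q).1 hQ _ (smul_mem_zer hPH hv a) _
  · -- the prescribed line
    intro Q hQ
    have h1 := (hM Q).1 hQ z hzP ((x' i₀)⁻¹ * v₁ i₀)
    rwa [hzv] at h1
  · -- dimension
    have hprime : (RingHom.ker (phi P₀ x')).IsPrime := RingHom.ker_isPrime _
    by_cases hρ : ρ ≤ r
    · have hsurj := phi_surj hi₀ hl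
      have h1 := (indep_poly hy).map' (f := (Ideal.quotientKerAlgEquivOfSurjective
        hsurj).symm.toAlgHom) (Ideal.quotientKerAlgEquivOfSurjective hsurj).symm.injective
      have h2 : Fintype.card (Fin (r + 1)) - (ρ + 1) + 1 = r + 1 - ρ := by
        rw [Fintype.card_fin]
        omega
      rw [← h2]
      refine hTB (Fin (r + 1)) (Sx r ⧸ RingHom.ker (phi P₀ x'))
        (fun i => Ideal.Quotient.mk _ (X i)) ?_ _ _ h1
      have h3 : Algebra.adjoin ℂ (Set.range fun i =>
          Ideal.Quotient.mk (RingHom.ker (phi P₀ x')) (X i)) = ⊤ := by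
        rw [eq_top_iff]
        rintro z -
        obtain ⟨Q, rfl⟩ := Ideal.Quotient.mk_surjective z
        induction Q using MvPolynomial.induction_on with
        | C a => exact Subalgebra.algebraMap_mem _ a
        | add p q hp hq =>
          rw [map_add]
          exact Subalgebra.add_mem _ hp hq
        | mul_X p i hp =>
          rw [map_mul]
          exact Subalgebra.mul_mem _ hp (Algebra.subset_adjoin ⟨i, rfl⟩)
      refine ⟨fun z => ?_⟩
      have h4 : z ∈ Algebra.adjoin ℂ (Set.range fun i =>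
          Ideal.Quotient.mk (RingHom.ker (phi P₀ x')) (X i)) := by
        rw [h3]
        exact Algebra.mem_top
      exact isAlgebraic_algebraMap (⟨z, h4⟩ : Algebra.adjoin ℂ (Set.range fun i =>
          Ideal.Quotient.mk (RingHom.ker (phi P₀ x')) (X i)))
    · have h2 : r + 1 - ρ = 0 := by omega
      rw [h2]
      refine ⟨Fin.elim0, ?_⟩
      have : Nontrivial (Sx r ⧸ RingHom.ker (phi P₀ x')) :=
        Ideal.Quotient.nontrivial_iff.2 hprime.ne_top
      exact algebraicIndependent_empty_type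
  · -- stability
    intro v hv s Q hQ
    have h1 : eval (v + s • x') Q = eval v (aeval (fun i => X i + C (s * x' i)) Q : Sx r) := by
      rw [aeval_def, ← coe_eval₂Hom, ← RingHom.comp_apply]
      have h2 : (eval v).comp (eval₂Hom (algebraMap ℂ (Sx r)) fun i => X i + C (s * x' i)) =
          eval (v + s • x') := by
        refine MvPolynomial.ringHom_ext (fun a => ?_) (fun i => ?_)
        · simp
        · simp
      rw [h2]
    rw [h1]
    refine hv _ ?_
    rw [hM]
    intro w hw s'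
    have h2 : eval (w + s' • x') (aeval (fun i => X i + C (s * x' i)) Q : Sx r) =
        eval (w + (s' + s) • x') Q := by
      rw [aeval_def, ← coe_eval₂Hom, ← RingHom.comp_apply]
      have h3 : (eval (w + s' • x')).comp
          (eval₂Hom (algebraMap ℂ (Sx r)) fun i => X i + C (s * x' i)) =
          eval (w + (s' + s) • x') := by
        refine MvPolynomial.ringHom_ext (fun a => ?_) (fun i => ?_)
        · simp
        · simp
          ring
      rw [h3]
    rw [h2]
    exact (hM Q).1 hQ w hw _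
  · -- the cone
    intro v hv s t
    have h1 : ∀ w : Vx r, eval (s • x' + t • w) F =
        eval w (aeval (fun i => C (s * x' i) + C t * X i) F : Sx r) := by
      intro w
      rw [aeval_def, ← coe_eval₂Hom, ← RingHom.comp_apply]
      have h2 : (eval w).comp
          (eval₂Hom (algebraMap ℂ (Sx r)) fun i => C (s * x' i) + C t * X i) =
          eval (s • x' + t • w) := by
        refine MvPolynomial.ringHom_ext (fun a => ?_) (fun i => ?_)
        · simp
        · simp
      rw [h2]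
    rw [h1]
    refine hv _ ?_
    rw [hM]
    intro w hw s'
    rw [← h1, smul_add, smul_smul, ← add_assoc, add_right_comm, ← add_smul]
    exact hA w hw _ _

theorem lCnF : S_Krull → S_Null → S_LinS → S_LinB → S_TB → S_CnF := by
  intro hK hN hLS hLB hTB r ρ F hF x' hx' hFx
  obtain ⟨P, h1, h2, -, h3, h4, h5⟩ := lCnF2 hK hN hLS hLB hTB r ρ F hF x' hx' hFx 0
    (fun s t => by rw [smul_zero, add_zero, eval_smul_form hF, hFx, mul_zero])
  exact ⟨P, h1, h2, h3, h4, h5⟩

end Pool.Agent.Lib.MP_776403_ag.SD
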