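import Pool.Agent.Lib.MP_776403_ag.SD.L.SpecC2
import Pool.Agent.Lib.MP_776403_ag.SD.Bas

/-!
# THEOREM SD, part L: lifting the cone of lines from the hypersurface
-/

set_option autoImplicit false

open MvPolynomial

noncomputable section

namespace Pool.Agent.Lib.MP_776403_ag.SD

namespace CnLAux

variable {N : ℕ}

/-- Scaling of a form, values in an algebra. -/
theorem aeval_scale {A : Type} [CommRing A] [Algebra ℂ A] {P : Sx N} {e : ℕ}
    (hP : P.IsHomogeneous e) (a : A) (b : Fin (N + 1) → A) :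
    aeval (fun j => a * b j) P = a ^ e * aeval b P := by
  rw [aeval_def, aeval_def, eval₂_eq', eval₂_eq', Finset.mul_sum]
  refine Finset.sum_congr rfl fun α hα => ?_
  have h1 : α.degree = e := by
    by_contra hne
    exact (mem_support_iff.mp hα) (hP.coeff_eq_zero hne)
  have h2 : ∏ i, (a * b i) ^ α i = a ^ e * ∏ i, b i ^ α i := by
    simp only [mul_pow, Finset.prod_mul_distrib]
    rw [Finset.prod_pow_eq_pow_sum, ← h1, Finsupp.degree_eq_sum]
  rw [h2]
  ring

theorem eval_aeval {r : ℕ} (x : Vx N) (z : Fin (r + 1) → Sx N) (q : Sx r) :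
    eval x (aeval z q) = eval (fun i => eval x (z i)) q := by
  induction q using MvPolynomial.induction_on with
  | C a => simp
  | add p q hp hq => simp only [map_add, hp, hq]
  | mul_X p i hp => rw [map_mul, map_mul, map_mul, hp, aeval_X, eval_X]

/-- `ℂ[t]` is integrally closed. -/
theorem dvd_of_integral {G c : Polynomial ℂ} (hc : c ≠ 0) {m : ℕ} (p : ℕ → Polynomial ℂ)
    (h : G ^ m + ∑ k ∈ Finset.range m, p k * c ^ (m - k) * G ^ k = 0) : c ∣ G := by
  let K := FractionRing (Polynomial ℂ)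
  have hc' : algebraMap (Polynomial ℂ) K c ≠ 0 := by
    intro h0
    exact hc ((IsFractionRing.injective (Polynomial ℂ) K) (by rw [h0, map_zero]))
  set a : K := algebraMap (Polynomial ℂ) K G / algebraMap (Polynomial ℂ) K c with ha
  have hGa : algebraMap (Polynomial ℂ) K G = algebraMap (Polynomial ℂ) K c * a := by
    exact (mul_div_cancel₀ _ hc').symm
  have hint : IsIntegral (Polynomial ℂ) a := by
    refine ⟨Polynomial.X ^ m + ∑ k ∈ Finset.range m, Polynomial.C (p k) * Polynomial.X ^ k,
      Polynomial.monic_X_pow_add ?_, ?_⟩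
    · rw [← Polynomial.mem_degreeLT]
      refine Submodule.sum_mem _ fun k hk => ?_
      rw [Polynomial.mem_degreeLT]
      refine (Polynomial.degree_C_mul_X_pow_le _ _).trans_lt ?_
      exact_mod_cast Finset.mem_range.mp hk
    · have h1 := congrArg (algebraMap (Polynomial ℂ) K) h
      rw [map_add, map_pow, map_sum, map_zero] at h1
      have h2 : algebraMap (Polynomial ℂ) K c ^ m * (a ^ m + ∑ k ∈ Finset.range m,
          algebraMap (Polynomial ℂ) K (p k) * a ^ k) = 0 := by
        rw [← h1, hGa, mul_add, mul_pow, Finset.mul_sum]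
        congr 1
        refine Finset.sum_congr rfl fun k hk => ?_
        rw [map_mul, map_mul, map_pow, map_pow, hGa, mul_pow]
        have h3 : algebraMap (Polynomial ℂ) K c ^ m =
            algebraMap (Polynomial ℂ) K c ^ (m - k) * algebraMap (Polynomial ℂ) K c ^ k := by
          rw [← pow_add, Nat.sub_add_cancel (Finset.mem_range.mp hk).le]
        rw [h3]
        ring
      have h4 := (mul_eq_zero.mp h2).resolve_left (pow_ne_zero _ hc')
      rw [Polynomial.eval₂_add, Polynomial.eval₂_pow, Polynomial.eval₂_X,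
        Polynomial.eval₂_finsetSum]
      rw [← h4]
      congr 1
      refine Finset.sum_congr rfl fun k _ => ?_
      rw [Polynomial.eval₂_mul, Polynomial.eval₂_C, Polynomial.eval₂_pow, Polynomial.eval₂_X]
  obtain ⟨y, hy⟩ := IsIntegrallyClosed.isIntegral_iff.mp hint
  refine ⟨y, (IsFractionRing.injective (Polynomial ℂ) K) ?_⟩
  rw [map_mul, hy, hGa]

/-- An integral element with equation of degrees `≤ m - k` has degree at most one. -/
theorem natDegree_le_one {ξ : Polynomial ℂ} {m : ℕ} (p : ℕ → Polynomial ℂ)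
    (hp : ∀ k < m, (p k).natDegree ≤ m - k)
    (h : ξ ^ m + ∑ k ∈ Finset.range m, p k * ξ ^ k = 0) : ξ.natDegree ≤ 1 := by
  by_contra hd
  have hd : 2 ≤ ξ.natDegree := by lia
  have hm : 1 ≤ m := by
    rcases Nat.eq_zero_or_pos m with h0 | h0
    · subst h0
      simp at h
    · exact h0
  have h1 : (ξ ^ m).natDegree = m * ξ.natDegree := Polynomial.natDegree_pow _ _
  have h2 : (∑ k ∈ Finset.range m, p k * ξ ^ k).natDegree ≤ m * ξ.natDegree - 1 := by
    refine Polynomial.natDegree_sum_le_of_forall_le _ _ fun k hk => ?_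
    have hk := Finset.mem_range.mp hk
    refine (Polynomial.natDegree_mul_le).trans ?_
    have h3 := hp k hk
    rw [Polynomial.natDegree_pow]
    obtain ⟨l, hl⟩ : ∃ l, m = k + l + 1 := ⟨m - k - 1, by lia⟩
    subst hl
    have h4 : (l + 1) * 2 ≤ (l + 1) * ξ.natDegree := Nat.mul_le_mul_left _ hd
    have h5 : (k + l + 1) * ξ.natDegree = k * ξ.natDegree + (l + 1) * ξ.natDegree := by ring
    have h6 : k + l + 1 - k = l + 1 := by lia
    rw [h6] at h3
    rw [h5]
    lia
  have h3 : ξ ^ m = - ∑ k ∈ Finset.range m, p k * ξ ^ k := eq_neg_of_add_eq_zero_left h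
  rw [h3, Polynomial.natDegree_neg] at h1
  have h4 : 1 * 2 ≤ m * ξ.natDegree := Nat.mul_le_mul hm hd
  lia

theorem lin_aeval {N : ℕ} (x v : Vx N) (ξ : Fin (N + 1) → Polynomial ℂ)
    (hξ : ∀ j, ξ j = Polynomial.C (x j) + Polynomial.C (v j) * Polynomial.X) (P : Sx N) :
    lin x v P = aeval ξ P := by
  have : ξ = fun i => Polynomial.C (x i) + Polynomial.C (v i) * Polynomial.X := funext hξ
  rw [this]
  rfl


/-- CLAIM A: lines through `x'` in the hypersurface lift to lines through `x`. -/
theorem claimA {I : Ideal (Sx N)} (hI : I.IsPrime) (hIh : IsHom I) {r : ℕ} (M : Model I r)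
    {x : Vx N} (hx : x ∈ zer I) (hg : eval x (aeval M.z M.g) ≠ 0) (v' : Vx r)
    (hv' : ∀ s t : ℂ, eval (s • (fun i => eval x (M.z i)) + t • v') M.F = 0) :
    ∃ v : Vx N, (∀ j, lin (fun i => eval x (M.z i)) v' (M.G j) =
        lin (fun i => eval x (M.z i)) v' M.g *
          (Polynomial.C (x j) + Polynomial.C (v j) * Polynomial.X)) ∧
      (∀ Q ∈ I, lin x v Q = 0) ∧
      ∀ i, lin x v (M.z i) = Polynomial.C (eval x (M.z i)) + Polynomial.C (v' i) * Polynomial.X := by
  have := hI
  set x' : Vx r := fun i => eval x (M.z i) with hx'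
  have hev : ∀ q : Sx r, eval x (aeval M.z q) = eval x' q := fun q => eval_aeval x M.z q
  have hlF : lin x' v' M.F = 0 := by
    refine poly_ext fun t => ?_
    rw [lin_eval, Polynomial.eval_zero]
    have := hv' 1 t
    rwa [one_smul] at this
  have hstar : ∀ q : Sx r, aeval M.z q ∈ I → lin x' v' q = 0 := by
    intro q hq
    obtain ⟨w, hw⟩ := (M.mem q).mp hq
    rw [hw, map_mul, hlF, zero_mul]
  have hmkG : ∀ j, Ideal.Quotient.mk I (aeval M.z (M.G j)) =
      Ideal.Quotient.mk I (aeval M.z M.g) * Ideal.Quotient.mk I (X j) := by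
    intro j
    have h := Ideal.Quotient.eq_zero_iff_mem.mpr (M.hG j)
    rw [map_sub, map_mul] at h
    exact (sub_eq_zero.mp h).symm
  set γ := lin x' v' M.g with hγ
  have hγ0 : γ.eval 0 ≠ 0 := by
    rw [hγ, lin_eval, zero_smul, add_zero, ← hev]
    exact hg
  have hγne : γ ≠ 0 := by
    intro h0
    rw [h0, Polynomial.eval_zero] at hγ0
    exact hγ0 rfl
  have hone : ∀ j, lin x' v' (M.G j) ^ M.m j + ∑ k ∈ Finset.range (M.m j),
      lin x' v' (M.p j k) * γ ^ (M.m j - k) * lin x' v' (M.G j) ^ k = 0 := by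
    intro j
    have h1 := hstar (M.G j ^ M.m j + ∑ k ∈ Finset.range (M.m j),
      M.p j k * M.g ^ (M.m j - k) * M.G j ^ k) ?_
    · rw [← h1, map_add, map_pow, map_sum]
      congr 1
      refine Finset.sum_congr rfl fun k _ => ?_
      rw [map_mul, map_mul, map_pow, map_pow]
    · rw [← Ideal.Quotient.eq_zero_iff_mem]
      have h2 := Ideal.Quotient.eq_zero_iff_mem.mpr (M.hp j)
      have h3 : Ideal.Quotient.mk I (aeval M.z (M.G j ^ M.m j + ∑ k ∈ Finset.range (M.m j),
          M.p j k * M.g ^ (M.m j - k) * M.G j ^ k)) =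
          Ideal.Quotient.mk I (aeval M.z M.g) ^ M.m j *
          Ideal.Quotient.mk I (X j ^ M.m j +
            ∑ k ∈ Finset.range (M.m j), aeval M.z (M.p j k) * X j ^ k) := by
        simp only [map_add, map_pow, map_sum, map_mul, hmkG]
        rw [mul_add, mul_pow, Finset.mul_sum]
        congr 1
        refine Finset.sum_congr rfl fun k hk => ?_
        have h4 : Ideal.Quotient.mk I (aeval M.z M.g) ^ M.m j =
            Ideal.Quotient.mk I (aeval M.z M.g) ^ (M.m j - k) *
            Ideal.Quotient.mk I (aeval M.z M.g) ^ k := by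
          rw [← pow_add, Nat.sub_add_cancel (Finset.mem_range.mp hk).le]
        rw [h4]
        ring
      rw [h3, h2, mul_zero]
  have hdiv : ∀ j, ∃ ξ : Polynomial ℂ, lin x' v' (M.G j) = γ * ξ := fun j =>
    dvd_of_integral hγne _ (hone j)
  choose ξ hξ using hdiv
  have htwo : ∀ j, ξ j ^ M.m j + ∑ k ∈ Finset.range (M.m j), lin x' v' (M.p j k) * ξ j ^ k = 0 := by
    intro j
    have h1 := hone j
    have h2 : γ ^ M.m j * (ξ j ^ M.m j +
        ∑ k ∈ Finset.range (M.m j), lin x' v' (M.p j k) * ξ j ^ k) = 0 := by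
      rw [← h1, hξ, mul_add, mul_pow, Finset.mul_sum]
      congr 1
      refine Finset.sum_congr rfl fun k hk => ?_
      have h3 : γ ^ M.m j = γ ^ (M.m j - k) * γ ^ k := by
        rw [← pow_add, Nat.sub_add_cancel (Finset.mem_range.mp hk).le]
      rw [h3, mul_pow]
      ring
    exact (mul_eq_zero.mp h2).resolve_left (pow_ne_zero _ hγne)
  have hdeg : ∀ j, (ξ j).natDegree ≤ 1 := by
    intro j
    refine natDegree_le_one (fun k => lin x' v' (M.p j k)) (fun k hk => ?_) (htwo j)
    have h1 := lin_mem (M.phom j k hk) x' v'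
    rw [Polynomial.mem_degreeLT] at h1
    have h2 : (lin x' v' (M.p j k)).degree ≤ ((M.m j - k : ℕ) : WithBot ℕ) :=
      Order.lt_succ_iff.mp (by exact_mod_cast h1)
    exact Polynomial.natDegree_le_of_degree_le h2
  have hξ0 : ∀ j, (ξ j).coeff 0 = x j := by
    intro j
    have h1 := hx _ (M.hG j)
    rw [map_sub, map_mul, eval_X, hev, hev] at h1
    have h2 : (lin x' v' (M.G j)).eval 0 = eval x' (M.G j) := by
      rw [lin_eval, zero_smul, add_zero]
    have h3 : γ.eval 0 = eval x' M.g := by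
      rw [hγ, lin_eval, zero_smul, add_zero]
    rw [hξ, Polynomial.eval_mul] at h2
    rw [Polynomial.coeff_zero_eq_eval_zero]
    have h4 : γ.eval 0 * (ξ j).eval 0 = γ.eval 0 * x j := by
      rw [h2, h3]
      exact (sub_eq_zero.mp h1).symm
    exact mul_left_cancel₀ hγ0 h4
  set v : Vx N := fun j => (ξ j).coeff 1 with hv
  have hξv : ∀ j, ξ j = Polynomial.C (x j) + Polynomial.C (v j) * Polynomial.X := by
    intro j
    calc ξ j = Polynomial.C ((ξ j).coeff 1) * Polynomial.X + Polynomial.C ((ξ j).coeff 0) :=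
          Polynomial.eq_X_add_C_of_natDegree_le_one (hdeg j)
      _ = _ := by rw [hξ0, add_comm]
  -- forms in the coordinates `G j`
  have hbind : ∀ (P : Sx N), aeval ξ P = lin x v P := fun P => (lin_aeval x v ξ hξv P).symm
  have hscale : ∀ (P : Sx N) (e : ℕ), P.IsHomogeneous e →
      lin x' v' (bind₁ M.G P) = γ ^ e * lin x v P := by
    intro P e hP
    rw [← hbind, ← aeval_scale hP]
    have h1 : ∀ Q : Sx N, lin x' v' (bind₁ M.G Q) = aeval (fun j => γ * ξ j) Q := by
      intro Q
      induction Q using MvPolynomial.induction_on with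
      | C a => simp [lin]
      | add p q hp hq => simp only [map_add, hp, hq]
      | mul_X p i hp => rw [map_mul, map_mul, map_mul, hp, bind₁_X_right, aeval_X, hξ]
    exact h1 P
  have hmkbind : ∀ (P : Sx N) (e : ℕ), P.IsHomogeneous e →
      Ideal.Quotient.mk I (aeval M.z (bind₁ M.G P)) =
        Ideal.Quotient.mk I (aeval M.z M.g) ^ e * Ideal.Quotient.mk I P := by
    intro P e hP
    have h1 : ∀ Q : Sx N, Ideal.Quotient.mk I (aeval M.z (bind₁ M.G Q)) =
        aeval (fun j => Ideal.Quotient.mk I (aeval M.z M.g) * Ideal.Quotient.mk I (X j)) Q := by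
      intro Q
      induction Q using MvPolynomial.induction_on with
      | C a =>
        rw [bind₁_C_right, algHom_C, algHom_C]
        rfl
      | add p q hp hq => simp only [map_add, hp, hq]
      | mul_X p i hp =>
        rw [map_mul, map_mul, map_mul, map_mul, hp, bind₁_X_right, aeval_X, hmkG]
    have h2 : ∀ Q : Sx N, Ideal.Quotient.mk I Q =
        aeval (fun j => Ideal.Quotient.mk I (X j)) Q := by
      intro Q
      induction Q using MvPolynomial.induction_on with
      | C a =>
        rw [algHom_C]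
        rfl
      | add p q hp hq => simp only [map_add, hp, hq]
      | mul_X p i hp => rw [map_mul, map_mul, hp, aeval_X]
    rw [h1, aeval_scale hP, ← h2]
  have hline : ∀ (P : Sx N) (e : ℕ), P.IsHomogeneous e → P ∈ I → lin x v P = 0 := by
    intro P e hP hPI
    have h1 := hstar (bind₁ M.G P) ?_
    · rw [hscale P e hP] at h1
      exact (mul_eq_zero.mp h1).resolve_left (pow_ne_zero _ hγne)
    · rw [← Ideal.Quotient.eq_zero_iff_mem, hmkbind P e hP, Ideal.Quotient.eq_zero_iff_mem.mpr hPI,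
        mul_zero]
  have hz : ∀ i, lin x v (M.z i) = Polynomial.C (x' i) + Polynomial.C (v' i) * Polynomial.X := by
    intro i
    have h1 := hstar (bind₁ M.G (M.z i) - M.g * X i) ?_
    · rw [map_sub, map_mul, hscale _ 1 (M.zhom i), pow_one] at h1
      have h2 := mul_left_cancel₀ hγne (sub_eq_zero.mp h1)
      rw [h2]
      unfold lin
      rw [aeval_X]
    · rw [← Ideal.Quotient.eq_zero_iff_mem, map_sub, map_sub, hmkbind _ 1 (M.zhom i), pow_one,
        map_mul, map_mul, aeval_X, sub_self]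
  refine ⟨v, fun j => by rw [hξ, hξv], fun Q hQ => ?_, hz⟩
  rw [← sum_homogeneousComponent Q, map_sum]
  exact Finset.sum_eq_zero fun e _ =>
    hline _ e (homogeneousComponent_isHomogeneous e Q) (hIh Q hQ e)

/-- All of `S / P` is integral over a subalgebra which contains the variables. -/
theorem isInt_all (P : Ideal (Sx N)) (A : Subalgebra ℂ (Sx N ⧸ P))
    (h : ∀ j : Fin (N + 1), IsIntegral A (Ideal.Quotient.mk P (X j))) (q : Sx N ⧸ P) :
    IsIntegral A q := by
  obtain ⟨q, rfl⟩ := Ideal.Quotient.mk_surjective q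
  induction q using MvPolynomial.induction_on with
  | C a =>
    have h1 : Ideal.Quotient.mk P (C a) = algebraMap A (Sx N ⧸ P) (algebraMap ℂ A a) := by
      rw [← IsScalarTower.algebraMap_apply ℂ A (Sx N ⧸ P)]
      rfl
    rw [h1]
    exact isIntegral_algebraMap
  | add p q hp hq => rw [map_add]; exact hp.add hq
  | mul_X p j hp => rw [map_mul]; exact hp.mul (h j)

/-- Linear substitutions commute with the homogeneous components. -/
theorem hc_aeval {r : ℕ} (L : Fin (N + 1) → Sx r) (hL : ∀ j, (L j).IsHomogeneous 1) (Q : Sx N)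
    (m : ℕ) : homogeneousComponent m (aeval L Q) = aeval L (homogeneousComponent m Q) := by
  have h1 : ∀ e : ℕ, aeval L (homogeneousComponent e Q) ∈
      homogeneousSubmodule (Fin (r + 1)) ℂ e := by
    intro e
    have h := (homogeneousComponent_isHomogeneous e Q).aeval L hL
    rwa [one_mul] at h
  conv_lhs => rw [← sum_homogeneousComponent Q, map_sum, map_sum]
  by_cases hm : m < Q.totalDegree + 1
  · rw [Finset.sum_eq_single_of_mem m (Finset.mem_range.2 hm)]
    · rw [homogeneousComponent_of_mem (h1 m), if_pos rfl]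
    · intro e _ he
      rw [homogeneousComponent_of_mem (h1 e), if_neg (Ne.symm he)]
  · rw [homogeneousComponent_eq_zero m Q (by omega), map_zero]
    refine Finset.sum_eq_zero fun e he => ?_
    have := Finset.mem_range.1 he
    rw [homogeneousComponent_of_mem (h1 e), if_neg (by omega)]

/-- The cone, with the condition under which it contains a given line. -/
theorem core (hNull : S_Null) (hLS : S_LinS) (hLB : S_LinB) (hTB : S_TB) {I : Ideal (Sx N)}
    (hI : I.IsPrime) (hIh : IsHom I) {r : ℕ} (M : Model I r) {x : Vx N} (hx : x ∈ zer I)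
    (hg : eval x (aeval M.z M.g) ≠ 0) {D : ℕ} {P' : Ideal (Sx r)}
    (hP' : P'.IsPrime) (hP'h : IsHom P') (hD : DimGe P' D)
    (hst : ∀ v ∈ zer P', ∀ s : ℂ, v + s • (fun i => eval x (M.z i)) ∈ zer P')
    (hcone : ∀ v ∈ zer P', ∀ s t : ℂ, eval (s • (fun i => eval x (M.z i)) + t • v) M.F = 0) :
    ∃ P : Ideal (Sx N), P.IsPrime ∧ IsHom P ∧ I ≤ P ∧ DimGe P D ∧
      (∀ v ∈ zer P, ∀ s : ℂ, v + s • x ∈ zer P) ∧
      (∀ v ∈ zer P, ∀ s t : ℂ, s • x + t • v ∈ zer I) ∧
      ∀ v₁ : Vx N, (∀ s t : ℂ, s • x + t • v₁ ∈ zer I) →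
        (fun i => eval v₁ (M.z i)) ∈ zer P' → v₁ ∈ zer P := by
  have := hI
  set x' : Vx r := fun i => eval x (M.z i) with hx'
  have hev : ∀ q : Sx r, eval x (aeval M.z q) = eval x' q := fun q => eval_aeval x M.z q
  set a : ℂ := eval x' M.g with ha
  have ha0 : a ≠ 0 := by
    rw [ha, ← hev]
    exact hg
  set L : Fin (N + 1) → Sx r := fun j =>
    C a⁻¹ * ((linS x' (M.G j)).coeff 1 - C (x j) * (linS x' M.g).coeff 1) with hL
  have hLhom : ∀ j, (L j).IsHomogeneous 1 := by
    intro j
    have h1 := (hLS r x' (M.G j) 1).2.2.1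
    have h2 := (isHomogeneous_C (Fin (r + 1)) (x j)).mul (hLS r x' M.g 1).2.2.1
    rw [zero_add] at h2
    have h3 := (isHomogeneous_C (Fin (r + 1)) a⁻¹).mul (h1.sub h2)
    rwa [zero_add] at h3
  have hLev : ∀ (w : Vx r) (j : Fin (N + 1)), eval w (L j) =
      a⁻¹ * ((lin x' w (M.G j)).coeff 1 - x j * (lin x' w M.g).coeff 1) := by
    intro w j
    rw [hL]
    simp only [map_mul, map_sub, eval_C]
    rw [(hLS r x' (M.G j) 1).2.1, (hLS r x' M.g 1).2.1]
  have hg0 : ∀ w : Vx r, (lin x' w M.g).coeff 0 = a := by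
    intro w
    rw [Polynomial.coeff_zero_eq_eval_zero, (hLB r x' w M.g).1, zero_smul, add_zero]
  have hLfrom : ∀ (w : Vx r) (u : Vx N), (∀ j, lin x' w (M.G j) =
        lin x' w M.g * (Polynomial.C (x j) + Polynomial.C (u j) * Polynomial.X)) →
      ∀ j, eval w (L j) = u j := by
    intro w u h j
    rw [hLev, h j, mul_add, Polynomial.coeff_add, Polynomial.coeff_mul_C, ← mul_assoc,
      Polynomial.coeff_mul_X, Polynomial.coeff_mul_C, hg0]
    field_simp
    ring
  -- the lifted lines
  have hA : ∀ w : Vx r, (∀ s t : ℂ, eval (s • x' + t • w) M.F = 0) →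
      (∀ Q ∈ I, lin x (fun j => eval w (L j)) Q = 0) ∧
      ∀ i, lin x (fun j => eval w (L j)) (M.z i) =
        Polynomial.C (x' i) + Polynomial.C (w i) * Polynomial.X := by
    intro w hw
    obtain ⟨u, h1, h2, h3⟩ := claimA hI hIh M hx hg w hw
    have h4 : (fun j => eval w (L j)) = u := funext (hLfrom w u h1)
    rw [h4]
    exact ⟨h2, h3⟩
  -- Claim B
  have hB : ∀ j, eval x' (L j) = x j := by
    refine hLfrom x' x fun j => poly_ext fun t => ?_
    have h1 : ∀ q : Sx r, (lin x' x' q).eval t = eval ((1 + t) • x) (aeval M.z q) := by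
      intro q
      rw [(hLB r x' x' q).1, eval_aeval]
      congr 1
      refine congrArg _ (funext fun i => ?_)
      rw [eval_smul_form (M.zhom i), pow_one]
      simp only [Pi.add_apply, Pi.smul_apply, smul_eq_mul, hx']
      ring
    have hz : (1 + t) • x ∈ zer I := by
      intro Q hQ
      rw [← sum_homogeneousComponent Q, map_sum]
      refine Finset.sum_eq_zero fun e _ => ?_
      rw [eval_smul_form (homogeneousComponent_isHomogeneous e Q), hx _ (hIh Q hQ e), mul_zero]
    have h2 := hz _ (M.hG j)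
    rw [map_sub, map_mul, eval_X, ← h1, ← h1] at h2
    rw [← sub_eq_zero.mp h2]
    simp only [Polynomial.eval_mul, Polynomial.eval_add, Polynomial.eval_C, Polynomial.eval_X,
      Pi.smul_apply, smul_eq_mul]
    ring
  have hLadd : ∀ (w : Vx r) (s : ℂ) (j : Fin (N + 1)),
      eval (w + s • x') (L j) = eval w (L j) + s * x j := by
    intro w s j
    have h1 := (hLB r w x' (L j)).2.1 1 (hLhom j)
    have h2 := h1.2.2 1 s
    rw [one_smul, Finset.sum_range_succ, Finset.sum_range_one] at h2
    have h3 : (lin w x' (L j)).coeff 0 = eval w (L j) := by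
      rw [Polynomial.coeff_zero_eq_eval_zero, (hLB r w x' (L j)).1, zero_smul, add_zero]
    rw [h2, h3, h1.2.1, hB]
    ring
  -- the ideal
  set Λ : Sx N →ₐ[ℂ] Sx r := aeval L with hΛ
  have hΛev : ∀ (w : Vx r) (Q : Sx N), eval w (Λ Q) = eval (fun j => eval w (L j)) Q := by
    intro w Q
    exact eval_aeval w L Q
  set P : Ideal (Sx N) := P'.comap Λ.toRingHom with hP
  have hPm : ∀ Q : Sx N, Q ∈ P ↔ Λ Q ∈ P' := fun Q => Iff.rfl
  have hPp : P.IsPrime := Ideal.comap_isPrime _ _
  have hPev : ∀ Q : Sx N, (∀ w ∈ zer P', eval (fun j => eval w (L j)) Q = 0) → Q ∈ P := by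
    intro Q h
    rw [hPm]
    refine (hNull r P' hP' hP'h).1 _ fun w hw => ?_
    rw [hΛev]
    exact h w hw
  have hPh : IsHom P := by
    intro Q hQ m
    rw [hPm, hΛ, ← hc_aeval L hLhom]
    exact hP'h _ hQ m
  have hcoeff : ∀ Q ∈ I, ∀ n : ℕ, (linS x Q).coeff n ∈ P := by
    intro Q hQ n
    refine hPev _ fun w hw => ?_
    rw [(hLS N x Q n).2.1, (hA w (hcone w hw)).1 Q hQ, Polynomial.coeff_zero]
  have hIP : I ≤ P := by
    intro Q hQ
    rw [← sum_homogeneousComponent Q]
    refine Ideal.sum_mem _ fun e _ => ?_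
    have h1 := hcoeff _ (hIh Q hQ e) e
    rwa [((hLS N x (homogeneousComponent e Q) e).2.2.2.1 e
      (homogeneousComponent_isHomogeneous e Q)).1] at h1
  refine ⟨P, hPp, hPh, hIP, ?_, ?_, ?_, ?_⟩
  · -- the dimension
    obtain ⟨i, hi⟩ := hD
    have hle : P ≤ P'.comap Λ.toRingHom := le_rfl
    let φ : (Sx N ⧸ P) →ₐ[ℂ] (Sx r ⧸ P') :=
      Ideal.Quotient.liftₐ P ((Ideal.Quotient.mkₐ ℂ P').comp Λ) (fun Q hQ =>
        Ideal.Quotient.eq_zero_iff_mem.2 hQ)
    have hφ : ∀ k, φ (Ideal.Quotient.mk P (M.z k)) = Ideal.Quotient.mk P' (X k) := by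
      intro k
      have h0 : φ (Ideal.Quotient.mk P (M.z k)) = Ideal.Quotient.mk P' (Λ (M.z k)) := rfl
      rw [h0, ← sub_eq_zero, ← map_sub, Ideal.Quotient.eq_zero_iff_mem]
      refine (hNull r P' hP' hP'h).1 _ fun w hw => ?_
      have h1 := (hA w (hcone w hw)).2 k
      have h2 := ((hLB N x (fun j => eval w (L j)) (M.z k)).2.1 1 (M.zhom k)).2.1
      rw [map_sub, hΛev, eval_X, ← h2, h1]
      simp
    have hy : AlgebraicIndependent ℂ fun k => Ideal.Quotient.mk P (M.z (i k)) := by
      refine AlgebraicIndependent.of_comp φ ?_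
      have h1 : (φ ∘ fun k => Ideal.Quotient.mk P (M.z (i k))) =
          fun k => Ideal.Quotient.mk P' (X (i k)) := funext fun k => hφ (i k)
      rw [h1]
      exact hi
    have halg : Algebra.IsAlgebraic (Algebra.adjoin ℂ (Set.range fun j : Fin (N + 1) =>
        Ideal.Quotient.mk P (X j))) (Sx N ⧸ P) := by
      refine ⟨fun q => (isInt_all P _ (fun j => ?_) q).isAlgebraic⟩
      exact isIntegral_algebraMap (R := Algebra.adjoin ℂ (Set.range fun j : Fin (N + 1) =>
        Ideal.Quotient.mk P (X j))) (x := ⟨_, Algebra.subset_adjoin ⟨j, rfl⟩⟩)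
    obtain ⟨i', hi'⟩ := hTB (Fin (N + 1)) (Sx N ⧸ P) (fun j => Ideal.Quotient.mk P (X j)) halg D
      _ hy
    exact ⟨i', hi'⟩
  · -- stability
    intro v hv s Q hQ
    have h1 : aeval (fun j => X j + C (s * x j)) Q ∈ P := by
      refine hPev _ fun w hw => ?_
      rw [eval_aeval]
      have h2 := hst w hw s _ hQ
      have h3 : eval (w + s • x') (Λ Q) = 0 := h2
      rw [hΛev] at h3
      rw [← h3]
      congr 1
      refine congrArg _ (funext fun j => ?_)
      rw [hLadd, map_add, eval_X, eval_C]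
    have h4 := hv _ h1
    rw [eval_aeval] at h4
    rw [← h4]
    congr 1
    refine congrArg _ (funext fun j => ?_)
    rw [map_add, eval_X, eval_C]
    rfl
  · -- the cone of lines
    intro v hv s t Q hQ
    rw [← sum_homogeneousComponent Q, map_sum]
    refine Finset.sum_eq_zero fun e _ => ?_
    have h1 := ((hLB N x v (homogeneousComponent e Q)).2.1 e
      (homogeneousComponent_isHomogeneous e Q)).2.2 s t
    rw [h1]
    refine Finset.sum_eq_zero fun n _ => ?_
    rw [← (hLS N x (homogeneousComponent e Q) n).2.1 v,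
      hv _ (hcoeff _ (hIh Q hQ e) n), zero_mul, zero_mul]
  · -- the prescribed line
    intro v₁ hl hw
    set w : Vx r := fun i => eval v₁ (M.z i) with hwd
    have hzlin : ∀ (t : ℂ) (i : Fin (r + 1)), eval (x + t • v₁) (M.z i) = x' i + t * w i := by
      intro t i
      have h1 := (hLB N x v₁ (M.z i)).2.1 1 (M.zhom i)
      have h2 := h1.2.2 1 t
      rw [one_smul, Finset.sum_range_succ, Finset.sum_range_one] at h2
      have h3 : (lin x v₁ (M.z i)).coeff 0 = eval x (M.z i) := by
        rw [Polynomial.coeff_zero_eq_eval_zero, (hLB N x v₁ (M.z i)).1, zero_smul, add_zero]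
      rw [h2, h3, h1.2.1]
      simp only [hx', hwd]
      ring
    have hfrom : ∀ j, eval w (L j) = v₁ j := by
      refine hLfrom w v₁ fun j => poly_ext fun t => ?_
      have h1 : ∀ q : Sx r, (lin x' w q).eval t = eval (x + t • v₁) (aeval M.z q) := by
        intro q
        rw [(hLB r x' w q).1, eval_aeval]
        congr 1
        refine congrArg _ (funext fun i => ?_)
        rw [hzlin]
        rfl
      have h2 := hl 1 t _ (M.hG j)
      rw [one_smul, map_sub, map_mul, eval_X, ← h1, ← h1] at h2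
      rw [← sub_eq_zero.mp h2]
      simp only [Polynomial.eval_mul, Polynomial.eval_add, Polynomial.eval_C, Polynomial.eval_X,
        Pi.add_apply, Pi.smul_apply, smul_eq_mul]
      ring
    intro Q hQ
    have h1 : eval w (Λ Q) = 0 := hw _ ((hPm Q).mp hQ)
    rw [hΛev] at h1
    rw [← h1]
    congr 1
    refine congrArg _ (funext fun j => ?_)
    rw [hfrom]

end CnLAux

theorem lCnL : S_Null → S_LinS → S_LinB → S_TB → S_CnL := by
  intro hNull hLS hLB hTB N I hI hIh r M x hx hx0 hg D P' hP' hP'h hD hst hcone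
  obtain ⟨P, h1, h2, h3, h4, h5, h6, -⟩ :=
    CnLAux.core hNull hLS hLB hTB hI hIh M hx hg hP' hP'h hD hst hcone
  exact ⟨P, h1, h2, h3, h4, h5, h6⟩

theorem lCnL2 : S_Null → S_LinS → S_LinB → S_TB → S_CnL2 := by
  intro hNull hLS hLB hTB N I hI hIh r M x hx hx0 hg D P' hP' hP'h hD hst hcone v₁ hl hw
  obtain ⟨P, h1, h2, h3, h4, h5, h6, h7⟩ :=
    CnLAux.core hNull hLS hLB hTB hI hIh M hx hg hP' hP'h hD hst hcone
  exact ⟨P, h1, h2, h3, h7 v₁ hl hw, h4, h5, h6⟩

end Pool.Agent.Lib.MP_776403_ag.SD
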