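import Pool.Agent.Lib.MP_776403_ag.SD.SpecL

/-!
# THEOREM SD, part L: `X` is covered by lines if its degree is at most its dimension
-/

set_option autoImplicit false

open MvPolynomial

noncomputable section

namespace Pool.Agent.Lib.MP_776403_ag.SD

theorem lCov : S_Null → S_HFb → S_Hci → S_Noe → S_Rank → S_DimS → S_Model → S_Lift →
    S_Close → S_Cov := by
  intro hNull hHFb hHci hNoe hRank hDimS hModel hLift hClose N c d I hN hP hH hnd hS hR
  -- `X` is not empty
  have hne : ∃ y ∈ zer I, y ≠ 0 := by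
    by_contra hcon
    push Not at hcon
    have h1 : (X 0 : Sx N) ∈ I := by
      refine (hNull N I hP hH).1 (X 0) (fun z hz => ?_)
      rw [hcon z hz]
      simp
    have h2 := hnd _ h1 (isHomogeneous_X ℂ 0)
    exact X_ne_zero (R := ℂ) (0 : Fin (N + 1)) h2
  have hcN : c ≤ N := by omega
  have hfin : ∀ m : ℕ, Module.finrank ℂ (gr I m) ≤
      (∏ i, d i) * Nat.choose (m + (N - c)) (N - c) := by
    intro m
    have h1 := hHFb N c d I hP hH hne hR m
    have h2 := hHci c N d m hcN
    have h3 := le_trans h1 h2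
    exact_mod_cast h3
  obtain ⟨r, y, hy1, hy2, hy3⟩ := hNoe N I hP hH
  have hr : N + 1 - c ≤ r := by
    refine hDimS N c I hP hH hS hne r y (fun j => ?_)
    obtain ⟨m, p, _, h⟩ := hy3 j
    exact ⟨m, p, h⟩
  have hr' : (N - c) + 1 ≤ r := by omega
  have hRk := hRank N I (∏ i, d i) (N - c) hfin r y hy1 hr'
  have hre : r = (N - c) + 1 := by
    refine (hRk 1 (fun _ => 1) ?_).2 le_rfl
    intro b hb
    have h1 : aeval y (b 0) ∈ I := by simpa using hb
    have h2 : aeval (fun i => Ideal.Quotient.mk I (y i)) (b 0) = 0 := by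
      have h3 : Ideal.Quotient.mkₐ ℂ I (aeval y (b 0)) = 0 := by
        rw [Ideal.Quotient.mkₐ_eq_mk]
        exact Ideal.Quotient.eq_zero_iff_mem.2 h1
      rw [← AlgHom.comp_apply, MvPolynomial.comp_aeval] at h3
      exact h3
    have h4 : b 0 = 0 := (injective_iff_map_eq_zero _).1 hy2 _ h2
    funext i
    have : i = 0 := Subsingleton.elim _ _
    rw [this, h4]
    rfl
  obtain ⟨M, hM⟩ := hModel N I hP hH r y (∏ i, d i) hy1 hy2 hy3 (fun ρ g hb => (hRk ρ g hb).1)
  have hMr : M.ρ < r := by omega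
  exact hClose N I hP hH (aeval M.z M.g) M.gI
    (fun x hx hx0 hg => hLift N I hP hH r M hMr x hx hx0 hg)

end Pool.Agent.Lib.MP_776403_ag.SD
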