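import Pool.Agent.Lib.MP_776403_ag.SD.SpecL
import Pool.Agent.Lib.MP_776403_ag.SD.SpecD
import Pool.Agent.Lib.MP_776403_ag.SD.Bas

/-!
# THEOREM SD, part L: dimension from smoothness
-/

set_option autoImplicit false

open MvPolynomial

noncomputable section

namespace Pool.Agent.Lib.MP_776403_ag.SD

/-- All of `S / P` is integral over a subalgebra over which the variables are integral. -/
private theorem isInt_all {N : ℕ} (P : Ideal (Sx N)) (A : Subalgebra ℂ (Sx N ⧸ P))
    (h : ∀ j : Fin (N + 1), IsIntegral A (Ideal.Quotient.mk P (X j))) (q : Sx N ⧸ P) :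
    IsIntegral A q := by
  obtain ⟨q, rfl⟩ := Ideal.Quotient.mk_surjective q
  induction q using MvPolynomial.induction_on with
  | C a =>
    have h1 : Ideal.Quotient.mk P (C a) = algebraMap A (Sx N ⧸ P) (algebraMap ℂ A a) := by
      rw [← IsScalarTower.algebraMap_apply ℂ A (Sx N ⧸ P)]
      rfl
    rw [h1]
    exact isIntegral_algebraMap
  | add p q hp hq => rw [map_add]; exact hp.add hq
  | mul_X p j hp => rw [map_mul]; exact hp.mul (h j)

/-- An element with a monic equation is integral. -/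
private theorem isInt_eq {N : ℕ} (P : Ideal (Sx N)) (A : Subalgebra ℂ (Sx N ⧸ P))
    (x : Sx N ⧸ P) (m : ℕ) (a : ℕ → A)
    (h : x ^ m + ∑ k ∈ Finset.range m, (a k : Sx N ⧸ P) * x ^ k = 0) : IsIntegral A x := by
  refine ⟨Polynomial.X ^ m + ∑ k ∈ Finset.range m, Polynomial.C (a k) * Polynomial.X ^ k,
    Polynomial.monic_X_pow_add ?_, ?_⟩
  · rw [← Polynomial.mem_degreeLT]
    refine Submodule.sum_mem _ fun k hk => ?_
    rw [Polynomial.mem_degreeLT]
    refine lt_of_le_of_lt (Polynomial.degree_C_mul_X_pow_le k (a k)) ?_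
    exact_mod_cast Finset.mem_range.mp hk
  · rw [Polynomial.eval₂_add, Polynomial.eval₂_pow, Polynomial.eval₂_X, Polynomial.eval₂_finsetSum,
      ← h]
    refine congrArg _ (Finset.sum_congr rfl fun k _ => ?_)
    rw [Polynomial.eval₂_mul, Polynomial.eval₂_C, Polynomial.eval₂_pow, Polynomial.eval₂_X]
    rfl

theorem lDimS : S_Krull → S_TB → S_DimS := by
  intro hK hT N c I hIp hI hSm hne r y hj
  obtain ⟨y0, hy0, hy0'⟩ := hne
  obtain ⟨F, f, h, e, hF, hh, hh0, hli, hG⟩ := hSm y0 hy0 hy0'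
  have hIz : I ≤ ptI y0 := fun G hG => by
    rw [ptI, RingHom.mem_ker]
    exact hy0 G hG
  have hgen : I ≤ Ideal.span (Set.range F) ⊔ ptI y0 * I := by
    intro G hGI
    have h1 : G = C (eval y0 h)⁻¹ * (h * G) + (1 - C (eval y0 h)⁻¹ * h) * G := by ring
    rw [h1]
    refine Submodule.add_mem_sup (Ideal.mul_mem_left _ _ (hG G hGI)) (Ideal.mul_mem_mul ?_ hGI)
    rw [ptI, RingHom.mem_ker, map_sub, map_mul, map_one, eval_C, inv_mul_cancel₀ hh0, sub_self]
  have hWH : IsWH (fun _ : Fin (N + 1) => 1) I := by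
    intro G hGI m
    exact hI G hGI m
  obtain ⟨P, hPp, hIP, hPz, hPw, t, ht⟩ :=
    hK (Fin (N + 1)) (fun _ => 1) I y0 c F hWH hIz (fun i => (hF i).1) hgen
  have := hPp
  let x : Fin r → Sx N ⧸ P := fun i => Ideal.Quotient.mk P (y i)
  have hA : ∀ q : MvPolynomial (Fin r) ℂ,
      Ideal.Quotient.mk P (aeval y q) ∈ Algebra.adjoin ℂ (Set.range x) := by
    intro q
    induction q using MvPolynomial.induction_on with
    | C a =>
      have h1 : Ideal.Quotient.mk P (aeval y (C a)) = algebraMap ℂ (Sx N ⧸ P) a := by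
        rw [aeval_C]
        rfl
      rw [h1]
      exact Subalgebra.algebraMap_mem _ a
    | add p q hp hq => rw [map_add, map_add]; exact Subalgebra.add_mem _ hp hq
    | mul_X p i hp =>
      rw [map_mul, map_mul, aeval_X]
      exact Subalgebra.mul_mem _ hp (Algebra.subset_adjoin ⟨i, rfl⟩)
  have hint : ∀ j : Fin (N + 1),
      IsIntegral (Algebra.adjoin ℂ (Set.range x)) (Ideal.Quotient.mk P (X j)) := by
    intro j
    obtain ⟨m, p, hp⟩ := hj j
    refine isInt_eq P _ _ m (fun k => ⟨Ideal.Quotient.mk P (aeval y (p k)), hA (p k)⟩) ?_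
    have h1 := Ideal.Quotient.eq_zero_iff_mem.mpr (hIP hp)
    rw [map_add, map_pow, map_sum] at h1
    rw [← h1]
    refine congrArg _ (Finset.sum_congr rfl fun k _ => ?_)
    rw [map_mul, map_pow]
  have halg : Algebra.IsAlgebraic (Algebra.adjoin ℂ (Set.range x)) (Sx N ⧸ P) :=
    ⟨fun q => (isInt_all P _ hint q).isAlgebraic⟩
  obtain ⟨i, hi⟩ := hT (Fin r) (Sx N ⧸ P) x halg _ t ht
  have hinj : Function.Injective i := Function.Injective.of_comp (f := x) hi.injective
  have := Fintype.card_le_of_injective i hinj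
  rwa [Fintype.card_fin, Fintype.card_fin, Fintype.card_fin] at this

end Pool.Agent.Lib.MP_776403_ag.SD
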