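import Pool.Agent.Lib.MP_776403_ag.SD.SpecL

/-!
# THEOREM SD, part L: the Hilbert function from `RegBound`
-/

set_option autoImplicit false

open MvPolynomial

noncomputable section

namespace Pool.Agent.Lib.MP_776403_ag.SD

namespace HFbAux

theorem fin_gr {N : ℕ} (I : Ideal (Sx N)) (m : ℕ) : Module.Finite ℂ (gr I m) := by
  have h : (homogeneousSubmodule (Fin (N + 1)) ℂ m).FG := homogeneousSubmodule_fg _ _ m
  exact Module.Finite.iff_fg.mpr (h.map _)

/-- The function of `P` on the punctured cone. -/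
def fn {N : ℕ} (I : Ideal (Sx N)) (P : Sx N) (y : Vx N) : ℂ := by
  classical
  exact if y ∈ zer I ∧ y ≠ 0 then eval y P else 0

theorem fn_of {N : ℕ} {I : Ideal (Sx N)} (P : Sx N) {y : Vx N} (h : y ∈ zer I) (h0 : y ≠ 0) :
    fn I P y = eval y P := if_pos ⟨h, h0⟩

theorem fn_reg {N : ℕ} (I : Ideal (Sx N)) {P : Sx N} {m : ℕ} (hP : P.IsHomogeneous m) :
    IsReg I m (fn I P) := by
  refine ⟨fun y hy => if_neg fun h => ?_, fun y _ _ => ⟨P, 1, 0, ?_, isHomogeneous_one _ _, ?_, ?_⟩⟩
  · rcases hy with hy | hy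
    · exact hy h.1
    · exact h.2 hy
  · rw [zero_add]
    exact hP
  · rw [map_one]
    exact one_ne_zero
  · intro z hz hz0
    rw [fn_of P hz hz0, map_one, mul_one]

end HFbAux

open HFbAux in
theorem lHFb : S_Null → S_HFb := by
  intro hN N c d I hI hhom hne hR m
  have := fin_gr I m
  let b := Module.finBasis ℂ (gr I m)
  have hb : ∀ i, ∃ P : Sx N, P.IsHomogeneous m ∧ Ideal.Quotient.mk I P = (b i : Sx N ⧸ I) := by
    intro i
    obtain ⟨P, hP, hP'⟩ := (b i).2
    exact ⟨P, hP, hP'⟩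
  choose P hP hP' using hb
  refine hR m _ (fun i => fn I (P i)) (fun i => fn_reg I (hP i)) ?_
  rw [Fintype.linearIndependent_iff]
  intro a ha i
  have hF : (∑ j, a j • P j) ∈ I := by
    refine (hN N I hI hhom).2 hne _ m ?_ ?_
    · exact (homogeneousSubmodule (Fin (N + 1)) ℂ m).sum_mem fun j _ =>
        (homogeneousSubmodule (Fin (N + 1)) ℂ m).smul_mem _ (hP j)
    · intro z hz hz0
      have h1 := congrFun ha z
      rw [Finset.sum_apply] at h1
      rw [map_sum]
      refine Eq.trans (Finset.sum_congr rfl fun j _ => ?_) h1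
      rw [Pi.smul_apply, fn_of _ hz hz0, smul_eval, smul_eq_mul]
  have h2 : ∑ j, a j • (b j : Sx N ⧸ I) = 0 := by
    have h3 := Ideal.Quotient.eq_zero_iff_mem.mpr hF
    have h4 : Ideal.Quotient.mk I (∑ j, a j • P j) = ∑ j, a j • Ideal.Quotient.mk I (P j) := by
      rw [map_sum]
      rfl
    rw [h4] at h3
    rw [← h3]
    exact Finset.sum_congr rfl fun j _ => by rw [hP']
  have h5 : ∑ j, a j • b j = 0 := by
    apply Subtype.ext
    rw [Submodule.coe_sum]
    exact h2
  exact Fintype.linearIndependent_iff.mp b.linearIndependent a h5 i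

end Pool.Agent.Lib.MP_776403_ag.SD
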