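import Pool.Agent.Lib.MP_776403_ag.SD.SpecL

/-!
# THEOREM SD, part L: upper bound for the Hilbert function of a complete intersection
-/

set_option autoImplicit false

open MvPolynomial

noncomputable section

namespace Pool.Agent.Lib.MP_776403_ag.SD

namespace HciAux

/-- The number of monomials of degree `k` in `n + 1` variables, zero for `k < 0`. -/
def b (n : ℕ) (k : ℤ) : ℤ := if 0 ≤ k then ((n + k.toNat).choose n : ℤ) else 0

theorem b_nat (n t : ℕ) : b n (t : ℤ) = ((n + t).choose n : ℤ) := by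
  unfold b
  rw [if_pos (Int.natCast_nonneg t)]
  simp

theorem b_neg (n : ℕ) (k : ℤ) (h : k < 0) : b n k = 0 := by
  unfold b
  rw [if_neg (by omega)]

theorem b_rec (n : ℕ) (k : ℤ) : b (n + 1) k - b (n + 1) (k - 1) = b n k := by
  rcases lt_or_ge k 0 with h | h
  · rw [b_neg _ _ h, b_neg _ _ (by omega), b_neg _ _ h]
    simp
  · obtain ⟨t, rfl⟩ := Int.eq_ofNat_of_zero_le h
    rcases t with _ | u
    · rw [b_neg (n + 1) (((0 : ℕ) : ℤ) - 1) (by simp), b_nat, b_nat]
      simp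
    · have h1 : ((u + 1 : ℕ) : ℤ) - 1 = (u : ℤ) := by push_cast; ring
      rw [h1, b_nat, b_nat, b_nat]
      have h2 : (n + 1 + (u + 1)).choose (n + 1) =
          (n + 1 + u).choose n + (n + 1 + u).choose (n + 1) := by
        rw [← Nat.choose_succ_succ]
        rfl
      have h3 : n + (u + 1) = n + 1 + u := by ring
      rw [h2, h3]
      push_cast
      ring

theorem b_nonneg (n : ℕ) (k : ℤ) : 0 ≤ b n k := by
  unfold b
  split_ifs
  · exact Int.natCast_nonneg _
  · exact le_refl 0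

theorem b_mono (n : ℕ) (k k' : ℤ) (h : k ≤ k') : b n k ≤ b n k' := by
  rcases lt_or_ge k 0 with h0 | h0
  · rw [b_neg _ _ h0]
    exact b_nonneg n k'
  · obtain ⟨t, rfl⟩ := Int.eq_ofNat_of_zero_le h0
    obtain ⟨t', rfl⟩ := Int.eq_ofNat_of_zero_le (h0.trans h)
    rw [b_nat, b_nat]
    have h1 : t ≤ t' := by exact_mod_cast h
    exact_mod_cast Nat.choose_le_choose n (by omega)

/-- The alternating sum over the subsets of `s`. -/
def H {ι : Type} [DecidableEq ι] (d : ι → ℕ) (s : Finset ι) (N : ℕ) (k : ℤ) : ℤ :=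
  ∑ A ∈ s.powerset, (-1) ^ A.card * b N (k - ((∑ i ∈ A, d i : ℕ) : ℤ))

theorem H_rec {ι : Type} [DecidableEq ι] (d : ι → ℕ) (s : Finset ι) (N : ℕ) (k : ℤ) :
    H d s (N + 1) k - H d s (N + 1) (k - 1) = H d s N k := by
  unfold H
  rw [← Finset.sum_sub_distrib]
  refine Finset.sum_congr rfl fun A _ => ?_
  rw [← mul_sub, ← b_rec N]
  congr 3
  ring

theorem H_insert {ι : Type} [DecidableEq ι] (d : ι → ℕ) (s : Finset ι) (a : ι) (ha : a ∉ s)
    (N : ℕ) (k : ℤ) : H d (insert a s) N k = H d s N k - H d s N (k - (d a : ℤ)) := by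
  unfold H
  rw [Finset.sum_powerset_insert ha, sub_eq_add_neg, ← Finset.sum_neg_distrib]
  congr 1
  refine Finset.sum_congr rfl fun A hA => ?_
  have haA : a ∉ A := fun h => ha (Finset.mem_powerset.1 hA h)
  rw [Finset.card_insert_of_notMem haA, Finset.sum_insert haA, pow_succ]
  have h1 : k - ((d a + ∑ i ∈ A, d i : ℕ) : ℤ) = k - (d a : ℤ) - ((∑ i ∈ A, d i : ℕ) : ℤ) := by
    push_cast
    ring
  rw [h1]
  ring

theorem H_tele {ι : Type} [DecidableEq ι] (d : ι → ℕ) (s : Finset ι) (N : ℕ) (k : ℤ) (e : ℕ) :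
    H d s (N + 1) k - H d s (N + 1) (k - (e : ℤ)) = ∑ j ∈ Finset.range e, H d s N (k - (j : ℤ)) := by
  induction e with
  | zero => simp
  | succ e ih =>
    rw [Finset.sum_range_succ, ← ih, ← H_rec d s N (k - (e : ℤ))]
    have h1 : k - ((e + 1 : ℕ) : ℤ) = k - (e : ℤ) - 1 := by push_cast; ring
    rw [h1]
    ring

theorem H_le {ι : Type} [DecidableEq ι] (d : ι → ℕ) (s : Finset ι) :
    ∀ (N : ℕ) (k : ℤ), s.card ≤ N →
      H d s N k ≤ ((∏ i ∈ s, d i : ℕ) : ℤ) * b (N - s.card) k := by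
  induction s using Finset.induction_on with
  | empty =>
    intro N k _
    simp [H]
  | insert a s ha ih =>
    intro N k hN
    rw [Finset.card_insert_of_notMem ha] at hN ⊢
    obtain ⟨n, rfl⟩ : ∃ n, N = n + 1 := ⟨N - 1, by omega⟩
    rw [H_insert d s a ha, H_tele, Finset.prod_insert ha]
    have h1 : ∀ j ∈ Finset.range (d a), H d s n (k - (j : ℤ)) ≤
        ((∏ i ∈ s, d i : ℕ) : ℤ) * b (n - s.card) k := by
      intro j _
      refine (ih n (k - (j : ℤ)) (by omega)).trans ?_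
      exact mul_le_mul_of_nonneg_left (b_mono _ _ _ (by omega)) (Int.natCast_nonneg _)
    refine (Finset.sum_le_sum h1).trans ?_
    rw [Finset.sum_const, Finset.card_range, nsmul_eq_mul]
    have h2 : n + 1 - (s.card + 1) = n - s.card := by omega
    rw [h2]
    push_cast
    exact le_of_eq (by ring)

theorem hci_eq {c : ℕ} (d : Fin c → ℕ) (N m : ℕ) : hci d N m = H d Finset.univ N (m : ℤ) := by
  unfold hci H
  rw [Finset.powerset_univ]
  refine Finset.sum_congr rfl fun A _ => ?_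
  congr 1
  split_ifs with h
  · have h1 : (m : ℤ) - ((∑ i ∈ A, d i : ℕ) : ℤ) = ((m - ∑ i ∈ A, d i : ℕ) : ℤ) := by
      rw [Nat.cast_sub h]
    rw [h1, b_nat]
  · rw [b_neg]
    have h2 : m < ∑ i ∈ A, d i := not_le.1 h
    have h3 : (m : ℤ) < ((∑ i ∈ A, d i : ℕ) : ℤ) := by exact_mod_cast h2
    linarith

end HciAux

open HciAux in
theorem lHci : S_Hci := by
  intro c N d m hc
  rw [hci_eq]
  have h := H_le d Finset.univ N (m : ℤ) (by simpa using hc)
  rw [Finset.card_univ, Fintype.card_fin, b_nat] at h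
  rw [Nat.add_comm m (N - c)]
  exact h

end Pool.Agent.Lib.MP_776403_ag.SD
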