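import Pool.Agent.Lib.MP_776403_ag.SD.SpecL
import Pool.Agent.Lib.MP_776403_ag.SD.Bas

/-!
# THEOREM SD, part L: lifting lines from the hypersurface
-/

set_option autoImplicit false

open MvPolynomial

noncomputable section

namespace Pool.Agent.Lib.MP_776403_ag.SD

namespace LiftAux

variable {N : ℕ}

/-- Scaling of a form, values in an algebra. -/
theorem aeval_scale {A : Type} [CommRing A] [Algebra ℂ A] {P : Sx N} {e : ℕ}
    (hP : P.IsHomogeneous e) (a : A) (b : Fin (N + 1) → A) :
    aeval (fun j => a * b j) P = a ^ e * aeval b P := by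
  rw [aeval_def, aeval_def, eval₂_eq', eval₂_eq', Finset.mul_sum]
  refine Finset.sum_congr rfl fun α hα => ?_
  have h1 : α.degree = e := by
    by_contra hne
    exact (mem_support_iff.mp hα) (hP.coeff_eq_zero hne)
  have h2 : ∏ i, (a * b i) ^ α i = a ^ e * ∏ i, b i ^ α i := by
    simp only [mul_pow, Finset.prod_mul_distrib]
    rw [Finset.prod_pow_eq_pow_sum, ← h1, Finsupp.degree_eq_sum]
  rw [h2]
  ring

theorem eval_aeval {r : ℕ} (x : Vx N) (z : Fin (r + 1) → Sx N) (q : Sx r) :
    eval x (aeval z q) = eval (fun i => eval x (z i)) q := by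
  induction q using MvPolynomial.induction_on with
  | C a => simp
  | add p q hp hq => simp only [map_add, hp, hq]
  | mul_X p i hp => rw [map_mul, map_mul, map_mul, hp, aeval_X, eval_X]

/-- `ℂ[t]` is integrally closed. -/
theorem dvd_of_integral {G c : Polynomial ℂ} (hc : c ≠ 0) {m : ℕ} (p : ℕ → Polynomial ℂ)
    (h : G ^ m + ∑ k ∈ Finset.range m, p k * c ^ (m - k) * G ^ k = 0) : c ∣ G := by
  let K := FractionRing (Polynomial ℂ)
  have hc' : algebraMap (Polynomial ℂ) K c ≠ 0 := by
    intro h0
    exact hc ((IsFractionRing.injective (Polynomial ℂ) K) (by rw [h0, map_zero]))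
  set a : K := algebraMap (Polynomial ℂ) K G / algebraMap (Polynomial ℂ) K c with ha
  have hGa : algebraMap (Polynomial ℂ) K G = algebraMap (Polynomial ℂ) K c * a := by
    exact (mul_div_cancel₀ _ hc').symm
  have hint : IsIntegral (Polynomial ℂ) a := by
    refine ⟨Polynomial.X ^ m + ∑ k ∈ Finset.range m, Polynomial.C (p k) * Polynomial.X ^ k,
      Polynomial.monic_X_pow_add ?_, ?_⟩
    · rw [← Polynomial.mem_degreeLT]
      refine Submodule.sum_mem _ fun k hk => ?_
      rw [Polynomial.mem_degreeLT]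
      refine (Polynomial.degree_C_mul_X_pow_le _ _).trans_lt ?_
      exact_mod_cast Finset.mem_range.mp hk
    · have h1 := congrArg (algebraMap (Polynomial ℂ) K) h
      rw [map_add, map_pow, map_sum, map_zero] at h1
      have h2 : algebraMap (Polynomial ℂ) K c ^ m * (a ^ m + ∑ k ∈ Finset.range m,
          algebraMap (Polynomial ℂ) K (p k) * a ^ k) = 0 := by
        rw [← h1, hGa, mul_add, mul_pow, Finset.mul_sum]
        congr 1
        refine Finset.sum_congr rfl fun k hk => ?_
        rw [map_mul, map_mul, map_pow, map_pow, hGa, mul_pow]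
        have h3 : algebraMap (Polynomial ℂ) K c ^ m =
            algebraMap (Polynomial ℂ) K c ^ (m - k) * algebraMap (Polynomial ℂ) K c ^ k := by
          rw [← pow_add, Nat.sub_add_cancel (Finset.mem_range.mp hk).le]
        rw [h3]
        ring
      have h4 := (mul_eq_zero.mp h2).resolve_left (pow_ne_zero _ hc')
      rw [Polynomial.eval₂_add, Polynomial.eval₂_pow, Polynomial.eval₂_X,
        Polynomial.eval₂_finsetSum]
      rw [← h4]
      congr 1
      refine Finset.sum_congr rfl fun k _ => ?_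
      rw [Polynomial.eval₂_mul, Polynomial.eval₂_C, Polynomial.eval₂_pow, Polynomial.eval₂_X]
  obtain ⟨y, hy⟩ := IsIntegrallyClosed.isIntegral_iff.mp hint
  refine ⟨y, (IsFractionRing.injective (Polynomial ℂ) K) ?_⟩
  rw [map_mul, hy, hGa]

/-- An integral element with equation of degrees `≤ m - k` has degree at most one. -/
theorem natDegree_le_one {ξ : Polynomial ℂ} {m : ℕ} (p : ℕ → Polynomial ℂ)
    (hp : ∀ k < m, (p k).natDegree ≤ m - k)
    (h : ξ ^ m + ∑ k ∈ Finset.range m, p k * ξ ^ k = 0) : ξ.natDegree ≤ 1 := by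
  by_contra hd
  have hd : 2 ≤ ξ.natDegree := by lia
  have hm : 1 ≤ m := by
    rcases Nat.eq_zero_or_pos m with h0 | h0
    · subst h0
      simp at h
    · exact h0
  have h1 : (ξ ^ m).natDegree = m * ξ.natDegree := Polynomial.natDegree_pow _ _
  have h2 : (∑ k ∈ Finset.range m, p k * ξ ^ k).natDegree ≤ m * ξ.natDegree - 1 := by
    refine Polynomial.natDegree_sum_le_of_forall_le _ _ fun k hk => ?_
    have hk := Finset.mem_range.mp hk
    refine (Polynomial.natDegree_mul_le).trans ?_
    have h3 := hp k hk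
    rw [Polynomial.natDegree_pow]
    obtain ⟨l, hl⟩ : ∃ l, m = k + l + 1 := ⟨m - k - 1, by lia⟩
    subst hl
    have h4 : (l + 1) * 2 ≤ (l + 1) * ξ.natDegree := Nat.mul_le_mul_left _ hd
    have h5 : (k + l + 1) * ξ.natDegree = k * ξ.natDegree + (l + 1) * ξ.natDegree := by ring
    have h6 : k + l + 1 - k = l + 1 := by lia
    rw [h6] at h3
    rw [h5]
    lia
  have h3 : ξ ^ m = - ∑ k ∈ Finset.range m, p k * ξ ^ k := eq_neg_of_add_eq_zero_left h
  rw [h3, Polynomial.natDegree_neg] at h1
  have h4 : 1 * 2 ≤ m * ξ.natDegree := Nat.mul_le_mul hm hd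
  lia

theorem lin_aeval {N : ℕ} (x v : Vx N) (ξ : Fin (N + 1) → Polynomial ℂ)
    (hξ : ∀ j, ξ j = Polynomial.C (x j) + Polynomial.C (v j) * Polynomial.X) (P : Sx N) :
    lin x v P = aeval ξ P := by
  have : ξ = fun i => Polynomial.C (x i) + Polynomial.C (v i) * Polynomial.X := funext hξ
  rw [this]
  rfl

end LiftAux

open LiftAux in
theorem lLift : S_LineF → S_LinB → S_Lift := by
  intro hLineF _ N I hI hIh r M hρ x hx hx0 hg
  have := hI
  set x' : Vx r := fun i => eval x (M.z i) with hx'
  have hev : ∀ q : Sx r, eval x (aeval M.z q) = eval x' q := fun q => eval_aeval x M.z q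
  have hpx : ∀ j, x j ^ M.m j + ∑ k ∈ Finset.range (M.m j), eval x' (M.p j k) * x j ^ k = 0 := by
    intro j
    have h := hx _ (M.hp j)
    rw [map_add, map_pow, map_sum, eval_X] at h
    rw [← h]
    congr 1
    refine Finset.sum_congr rfl fun k _ => ?_
    rw [map_mul, map_pow, eval_X, hev]
  have hx'0 : x' ≠ 0 := by
    intro h0
    refine hx0 (funext fun j => ?_)
    have h := hpx j
    rw [Finset.sum_eq_zero, add_zero] at h
    · rcases Nat.eq_zero_or_pos (M.m j) with h1 | h1
      · rw [h1, pow_zero] at h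
        exact absurd h one_ne_zero
      · exact pow_eq_zero_iff (by lia) |>.mp h
    · intro k hk
      have hk := Finset.mem_range.mp hk
      have h1 := eval_smul_form (M.phom j k hk) 0 x'
      rw [zero_smul, zero_pow (by lia), zero_mul] at h1
      rw [h0, h1, zero_mul]
  have hF0 : eval x' M.F = 0 := by
    rw [← hev]
    exact hx _ ((M.mem M.F).mpr dvd_rfl)
  obtain ⟨v', hind, hv'⟩ := hLineF r M.ρ M.F M.Fhom hρ x' hx'0 hF0
  have hlF : lin x' v' M.F = 0 := by
    refine poly_ext fun t => ?_
    rw [lin_eval, Polynomial.eval_zero]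
    have := hv' 1 t
    rwa [one_smul] at this
  have hstar : ∀ q : Sx r, aeval M.z q ∈ I → lin x' v' q = 0 := by
    intro q hq
    obtain ⟨w, hw⟩ := (M.mem q).mp hq
    rw [hw, map_mul, hlF, zero_mul]
  have hmkG : ∀ j, Ideal.Quotient.mk I (aeval M.z (M.G j)) =
      Ideal.Quotient.mk I (aeval M.z M.g) * Ideal.Quotient.mk I (X j) := by
    intro j
    have h := Ideal.Quotient.eq_zero_iff_mem.mpr (M.hG j)
    rw [map_sub, map_mul] at h
    exact (sub_eq_zero.mp h).symm
  set γ := lin x' v' M.g with hγ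
  have hγ0 : γ.eval 0 ≠ 0 := by
    rw [hγ, lin_eval, zero_smul, add_zero, ← hev]
    exact hg
  have hγne : γ ≠ 0 := by
    intro h0
    rw [h0, Polynomial.eval_zero] at hγ0
    exact hγ0 rfl
  have hone : ∀ j, lin x' v' (M.G j) ^ M.m j + ∑ k ∈ Finset.range (M.m j),
      lin x' v' (M.p j k) * γ ^ (M.m j - k) * lin x' v' (M.G j) ^ k = 0 := by
    intro j
    have h1 := hstar (M.G j ^ M.m j + ∑ k ∈ Finset.range (M.m j),
      M.p j k * M.g ^ (M.m j - k) * M.G j ^ k) ?_
    · rw [← h1, map_add, map_pow, map_sum]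
      congr 1
      refine Finset.sum_congr rfl fun k _ => ?_
      rw [map_mul, map_mul, map_pow, map_pow]
    · rw [← Ideal.Quotient.eq_zero_iff_mem]
      have h2 := Ideal.Quotient.eq_zero_iff_mem.mpr (M.hp j)
      have h3 : Ideal.Quotient.mk I (aeval M.z (M.G j ^ M.m j + ∑ k ∈ Finset.range (M.m j),
          M.p j k * M.g ^ (M.m j - k) * M.G j ^ k)) =
          Ideal.Quotient.mk I (aeval M.z M.g) ^ M.m j *
          Ideal.Quotient.mk I (X j ^ M.m j +
            ∑ k ∈ Finset.range (M.m j), aeval M.z (M.p j k) * X j ^ k) := by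
        simp only [map_add, map_pow, map_sum, map_mul, hmkG]
        rw [mul_add, mul_pow, Finset.mul_sum]
        congr 1
        refine Finset.sum_congr rfl fun k hk => ?_
        have h4 : Ideal.Quotient.mk I (aeval M.z M.g) ^ M.m j =
            Ideal.Quotient.mk I (aeval M.z M.g) ^ (M.m j - k) *
            Ideal.Quotient.mk I (aeval M.z M.g) ^ k := by
          rw [← pow_add, Nat.sub_add_cancel (Finset.mem_range.mp hk).le]
        rw [h4]
        ring
      rw [h3, h2, mul_zero]
  have hdiv : ∀ j, ∃ ξ : Polynomial ℂ, lin x' v' (M.G j) = γ * ξ := fun j =>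
    dvd_of_integral hγne _ (hone j)
  choose ξ hξ using hdiv
  have htwo : ∀ j, ξ j ^ M.m j + ∑ k ∈ Finset.range (M.m j), lin x' v' (M.p j k) * ξ j ^ k = 0 := by
    intro j
    have h1 := hone j
    have h2 : γ ^ M.m j * (ξ j ^ M.m j +
        ∑ k ∈ Finset.range (M.m j), lin x' v' (M.p j k) * ξ j ^ k) = 0 := by
      rw [← h1, hξ, mul_add, mul_pow, Finset.mul_sum]
      congr 1
      refine Finset.sum_congr rfl fun k hk => ?_
      have h3 : γ ^ M.m j = γ ^ (M.m j - k) * γ ^ k := by
        rw [← pow_add, Nat.sub_add_cancel (Finset.mem_range.mp hk).le]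
      rw [h3, mul_pow]
      ring
    exact (mul_eq_zero.mp h2).resolve_left (pow_ne_zero _ hγne)
  have hdeg : ∀ j, (ξ j).natDegree ≤ 1 := by
    intro j
    refine natDegree_le_one (fun k => lin x' v' (M.p j k)) (fun k hk => ?_) (htwo j)
    have h1 := lin_mem (M.phom j k hk) x' v'
    rw [Polynomial.mem_degreeLT] at h1
    have h2 : (lin x' v' (M.p j k)).degree ≤ ((M.m j - k : ℕ) : WithBot ℕ) :=
      Order.lt_succ_iff.mp (by exact_mod_cast h1)
    exact Polynomial.natDegree_le_of_degree_le h2
  have hξ0 : ∀ j, (ξ j).coeff 0 = x j := by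
    intro j
    have h1 := hx _ (M.hG j)
    rw [map_sub, map_mul, eval_X, hev, hev] at h1
    have h2 : (lin x' v' (M.G j)).eval 0 = eval x' (M.G j) := by
      rw [lin_eval, zero_smul, add_zero]
    have h3 : γ.eval 0 = eval x' M.g := by
      rw [hγ, lin_eval, zero_smul, add_zero]
    rw [hξ, Polynomial.eval_mul] at h2
    rw [Polynomial.coeff_zero_eq_eval_zero]
    have h4 : γ.eval 0 * (ξ j).eval 0 = γ.eval 0 * x j := by
      rw [h2, h3]
      exact (sub_eq_zero.mp h1).symm
    exact mul_left_cancel₀ hγ0 h4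
  set v : Vx N := fun j => (ξ j).coeff 1 with hv
  have hξv : ∀ j, ξ j = Polynomial.C (x j) + Polynomial.C (v j) * Polynomial.X := by
    intro j
    calc ξ j = Polynomial.C ((ξ j).coeff 1) * Polynomial.X + Polynomial.C ((ξ j).coeff 0) :=
          Polynomial.eq_X_add_C_of_natDegree_le_one (hdeg j)
      _ = _ := by rw [hξ0, add_comm]
  -- forms in the coordinates `G j`
  have hbind : ∀ (P : Sx N), aeval ξ P = lin x v P := fun P => (lin_aeval x v ξ hξv P).symm
  have hscale : ∀ (P : Sx N) (e : ℕ), P.IsHomogeneous e →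
      lin x' v' (bind₁ M.G P) = γ ^ e * lin x v P := by
    intro P e hP
    rw [← hbind, ← aeval_scale hP]
    have h1 : ∀ Q : Sx N, lin x' v' (bind₁ M.G Q) = aeval (fun j => γ * ξ j) Q := by
      intro Q
      induction Q using MvPolynomial.induction_on with
      | C a => simp [lin]
      | add p q hp hq => simp only [map_add, hp, hq]
      | mul_X p i hp => rw [map_mul, map_mul, map_mul, hp, bind₁_X_right, aeval_X, hξ]
    exact h1 P
  have hmkbind : ∀ (P : Sx N) (e : ℕ), P.IsHomogeneous e →
      Ideal.Quotient.mk I (aeval M.z (bind₁ M.G P)) =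
        Ideal.Quotient.mk I (aeval M.z M.g) ^ e * Ideal.Quotient.mk I P := by
    intro P e hP
    have h1 : ∀ Q : Sx N, Ideal.Quotient.mk I (aeval M.z (bind₁ M.G Q)) =
        aeval (fun j => Ideal.Quotient.mk I (aeval M.z M.g) * Ideal.Quotient.mk I (X j)) Q := by
      intro Q
      induction Q using MvPolynomial.induction_on with
      | C a =>
        rw [bind₁_C_right, algHom_C, algHom_C]
        rfl
      | add p q hp hq => simp only [map_add, hp, hq]
      | mul_X p i hp =>
        rw [map_mul, map_mul, map_mul, map_mul, hp, bind₁_X_right, aeval_X, hmkG]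
    have h2 : ∀ Q : Sx N, Ideal.Quotient.mk I Q =
        aeval (fun j => Ideal.Quotient.mk I (X j)) Q := by
      intro Q
      induction Q using MvPolynomial.induction_on with
      | C a =>
        rw [algHom_C]
        rfl
      | add p q hp hq => simp only [map_add, hp, hq]
      | mul_X p i hp => rw [map_mul, map_mul, hp, aeval_X]
    rw [h1, aeval_scale hP, ← h2]
  have hline : ∀ (P : Sx N) (e : ℕ), P.IsHomogeneous e → P ∈ I → lin x v P = 0 := by
    intro P e hP hPI
    have h1 := hstar (bind₁ M.G P) ?_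
    · rw [hscale P e hP] at h1
      exact (mul_eq_zero.mp h1).resolve_left (pow_ne_zero _ hγne)
    · rw [← Ideal.Quotient.eq_zero_iff_mem, hmkbind P e hP, Ideal.Quotient.eq_zero_iff_mem.mpr hPI,
        mul_zero]
  have hz : ∀ i, lin x v (M.z i) = Polynomial.C (x' i) + Polynomial.C (v' i) * Polynomial.X := by
    intro i
    have h1 := hstar (bind₁ M.G (M.z i) - M.g * X i) ?_
    · rw [map_sub, map_mul, hscale _ 1 (M.zhom i), pow_one] at h1
      have h2 := mul_left_cancel₀ hγne (sub_eq_zero.mp h1)
      rw [h2]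
      unfold lin
      rw [aeval_X]
    · rw [← Ideal.Quotient.eq_zero_iff_mem, map_sub, map_sub, hmkbind _ 1 (M.zhom i), pow_one,
        map_mul, map_mul, aeval_X, sub_self]
  refine ⟨v, ?_, ?_⟩
  · rw [LinearIndependent.pair_iff]
    intro a b hab
    refine LinearIndependent.pair_iff.mp hind a b (funext fun i => ?_)
    have h1 := lin_hom (M.zhom i) x v a b
    rw [hab, hz i] at h1
    have h2 : eval (0 : Vx N) (M.z i) = 0 := by
      have := eval_smul_form (M.zhom i) 0 x
      rwa [zero_smul, pow_one, zero_mul] at this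
    rw [h2, Finset.sum_range_succ, Finset.sum_range_one] at h1
    simp at h1
    simp only [Pi.add_apply, Pi.smul_apply, smul_eq_mul, Pi.zero_apply]
    rw [← h1]
    ring
  · intro s t P hP
    have h1 := congrArg (eval (s • x + t • v)) (sum_homogeneousComponent P)
    rw [← h1, map_sum]
    refine Finset.sum_eq_zero fun e _ => ?_
    rw [← lin_hom (homogeneousComponent_isHomogeneous e P) x v s t,
      hline _ e (homogeneousComponent_isHomogeneous e P) (hIh P hP e)]
    simp

end Pool.Agent.Lib.MP_776403_ag.SD
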