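import Pool.Agent.Lib.MP_776403_ag.SD.SpecL

/-!
# THEOREM SD, module LinU: specialization of the generic line
-/

set_option autoImplicit false

open MvPolynomial

noncomputable section

namespace Pool.Agent.Lib.MP_776403_ag.SD

private theorem hom_eq (N : ℕ) (x : Vx N) :
    (Polynomial.mapRingHom (MvPolynomial.map (eval x) :
      MvPolynomial (Fin (N + 1)) (Sx N) →+* Sx N)).comp (linU (N := N) : Sx N →+* _) =
    (linS x : Sx N →+* Polynomial (Sx N)) := by
  apply MvPolynomial.ringHom_ext
  · intro c
    simp only [RingHom.comp_apply, RingHom.coe_coe, Polynomial.coe_mapRingHom]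
    have h1 : linU (N := N) (C c) = Polynomial.C (C (C c)) := by
      have h := (linU (N := N)).commutes c
      exact h
    have h2 : linS x (C c) = Polynomial.C (C c) := by
      have h := (linS x).commutes c
      exact h
    rw [h1, h2, Polynomial.map_C, MvPolynomial.map_C, eval_C]
  · intro i
    simp only [RingHom.comp_apply, RingHom.coe_coe, Polynomial.coe_mapRingHom]
    rw [linU, linS, aeval_X, aeval_X]
    simp

theorem lLinU : S_LinU := by
  intro N x F n
  have h := congrArg (fun f => f F) (hom_eq N x)
  simp only [RingHom.comp_apply, RingHom.coe_coe, Polynomial.coe_mapRingHom] at h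
  rw [← h, Polynomial.coeff_map]

end Pool.Agent.Lib.MP_776403_ag.SD
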