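import Pool.Agent.Lib.MP_776403_ag.SD.SpecL
import Pool.Agent.Lib.MP_776403_ag.SD.Bas

/-!
# THEOREM SD, part L: lines in hypersurfaces of small degree
-/

set_option autoImplicit false

open MvPolynomial

noncomputable section

namespace Pool.Agent.Lib.MP_776403_ag.SD

namespace LineFAux

/-- An ideal generated by forms is homogeneous. -/
theorem isWH_span {r n : ℕ} (b : Fin n → Sx r) (e : Fin n → ℕ)
    (hb : ∀ i, (b i).IsHomogeneous (e i)) : IsWH (fun _ => 1) (Ideal.span (Set.range b)) := by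
  intro F hF m
  have key : homogeneousComponent m F ∈ Ideal.span (Set.range b) := by
    rw [Ideal.mem_span_range_iff_exists_fun] at hF
    obtain ⟨c, rfl⟩ := hF
    rw [map_sum]
    refine Ideal.sum_mem _ fun i _ => ?_
    have h1 : homogeneousComponent m (c i * b i) =
        ∑ k ∈ Finset.range ((c i).totalDegree + 1),
          (if k + e i = m then homogeneousComponent k (c i) * b i else 0) := by
      conv_lhs => rw [← sum_homogeneousComponent (c i), Finset.sum_mul, map_sum]
      refine Finset.sum_congr rfl fun k _ => ?_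
      have h2 : (homogeneousComponent k (c i) * b i).IsHomogeneous (k + e i) :=
        (homogeneousComponent_isHomogeneous k (c i)).mul (hb i)
      rw [homogeneousComponent_of_mem h2]
      simp only [eq_comm]
    rw [h1]
    refine Ideal.sum_mem _ fun k _ => ?_
    split_ifs
    · exact Ideal.mul_mem_left _ _ (Ideal.subset_span ⟨i, rfl⟩)
    · exact Ideal.zero_mem _
  exact key

end LineFAux

theorem lLineF : S_Krull → S_Null → S_LinS → S_LinB → S_LineF := by
  intro hK hN hS hB r ρ F hF hρ x' hx' hFx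
  obtain ⟨k, hk⟩ : ∃ k, x' k ≠ 0 := by
    by_contra h
    push Not at h
    exact hx' (funext h)
  set b : Fin (ρ + 1) → Sx r := Fin.cons (X k) (fun j : Fin ρ => (linS x' F).coeff (j.1 + 1)) with hb
  have hb0 : b 0 = X k := by simp [hb]
  have hbs : ∀ j : Fin ρ, b j.succ = (linS x' F).coeff (j.1 + 1) := fun j => by simp [hb]
  set e : Fin (ρ + 1) → ℕ := Fin.cons 1 (fun j : Fin ρ => j.1 + 1) with he
  have hbe : ∀ i, (b i).IsHomogeneous (e i) := by
    intro i
    refine Fin.cases ?_ (fun j => ?_) i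
    · rw [hb0]
      simpa [he] using isHomogeneous_X ℂ k
    · rw [hbs]
      have := (hS r x' F (j.1 + 1)).2.2.1
      simpa [he] using this
  have hepos : ∀ i, e i ≠ 0 := by
    intro i
    refine Fin.cases ?_ (fun j => ?_) i <;> simp [he]
  set J : Ideal (Sx r) := Ideal.span (Set.range b) with hJ
  have hJ0 : J ≤ ptI (0 : Fin (r + 1) → ℂ) := by
    rw [hJ, Ideal.span_le]
    rintro _ ⟨i, rfl⟩
    have h1 := eval_smul_form (hbe i) 0 (0 : Vx r)
    rw [zero_smul, zero_pow (hepos i), zero_mul] at h1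
    exact h1
  obtain ⟨P, hP, hJP, hP0, hPW, y, hy⟩ := hK (Fin (r + 1)) (fun _ => 1) J 0 (ρ + 1) b
    (LineFAux.isWH_span b e hbe) hJ0 (fun i => Ideal.subset_span ⟨i, rfl⟩) le_sup_left
  have hPH : IsHom P := hPW
  have hex : ∃ v' ∈ zer P, v' ≠ 0 := by
    by_contra hno
    push Not at hno
    have hc : ∀ q : Sx r, q - C (eval 0 q) ∈ P := by
      intro q
      refine (hN r P hP hPH).1 _ fun z hz => ?_
      rw [hno z hz]
      simp
    have hcard : 0 < Fintype.card (Fin (r + 1)) - (ρ + 1) := by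
      rw [Fintype.card_fin]
      omega
    obtain ⟨q, hq⟩ := Ideal.Quotient.mk_surjective (y ⟨0, hcard⟩)
    have h2 : y ⟨0, hcard⟩ = algebraMap ℂ (Sx r ⧸ P) (eval 0 q) := by
      rw [← hq]
      exact Ideal.Quotient.eq.2 (hc q)
    have h3 : aeval y (X ⟨0, hcard⟩ - C (eval 0 q)) = 0 := by
      rw [map_sub, aeval_X, aeval_C, h2, sub_self]
    have h4 := hy (show aeval y (X ⟨0, hcard⟩ - C (eval 0 q)) = aeval y 0 by rw [h3, map_zero])
    have h5 := congrArg (eval fun _ => eval 0 q + 1) h4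
    rw [map_sub, eval_X, eval_C, map_zero] at h5
    simp at h5
  obtain ⟨v', hv, hv0⟩ := hex
  have hvk : v' k = 0 := by
    have := hv (b 0) (hJP (Ideal.subset_span ⟨0, rfl⟩))
    rwa [hb0, eval_X] at this
  have hlin : lin x' v' F = 0 := by
    ext n
    rw [Polynomial.coeff_zero]
    rcases Nat.eq_zero_or_pos n with rfl | hn
    · rw [← (hS r x' F 0).2.1 v', (hS r x' F 0).2.2.2.2, eval_C, hFx]
    rcases le_or_gt n ρ with hnr | hnr
    · obtain ⟨n', rfl⟩ : ∃ n', n = n' + 1 := ⟨n - 1, by omega⟩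
      rw [← (hS r x' F (n' + 1)).2.1 v']
      have := hv (b (Fin.succ ⟨n', by omega⟩)) (hJP (Ideal.subset_span ⟨_, rfl⟩))
      rwa [hbs] at this
    · exact Polynomial.coeff_eq_zero_of_natDegree_lt
        (lt_of_le_of_lt ((hB r x' v' F).2.1 ρ hF).1 hnr)
  refine ⟨v', ?_, fun s t => ?_⟩
  · rw [LinearIndependent.pair_iff]
    intro s t hst
    have h1 := congrFun hst k
    simp only [Pi.add_apply, Pi.smul_apply, smul_eq_mul, hvk, mul_zero, add_zero, Pi.zero_apply,
      mul_eq_zero, hk, or_false] at h1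
    refine ⟨h1, ?_⟩
    rw [h1, zero_smul, zero_add] at hst
    exact (smul_eq_zero.1 hst).resolve_right hv0
  · rw [((hB r x' v' F).2.1 ρ hF).2.2 s t, hlin]
    simp

end Pool.Agent.Lib.MP_776403_ag.SD
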