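import Pool.Agent.Lib.MP_776403_ag.SD.SpecL

/-!
# THEOREM SD, part L: a birational projection to a hypersurface
-/

set_option autoImplicit false

open MvPolynomial

noncomputable section

namespace Pool.Agent.Lib.MP_776403_ag.SD

/-- The primitive element, with denominators in the base ring. -/
private theorem ModelAux.prim (hP : S_Prim) {B R : Type} [CommRing B] [IsDomain B] [CommRing R]
    [IsDomain R] [Algebra ℂ B] [Algebra ℂ R] [Algebra B R] [IsScalarTower ℂ B R]
    (hinj : Function.Injective (algebraMap B R)) (n : ℕ) (x : Fin n → R)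
    (hint : ∀ i, IsIntegral B (x i)) (hgen : Algebra.adjoin B (Set.range x) = ⊤) :
    ∃ a : Fin n → ℂ, ∀ s : R, ∃ b : B, b ≠ 0 ∧ ∃ P : Polynomial B,
      b • s = Polynomial.aeval (∑ i, algebraMap ℂ R (a i) * x i) P := by
  have hf : FaithfulSMul B R := (faithfulSMul_iff_algebraMap_injective B R).2 hinj
  let _ : Algebra (FractionRing B) (FractionRing R) := FractionRing.liftAlgebra B (FractionRing R)
  have : IsScalarTower B (FractionRing B) (FractionRing R) :=
    FractionRing.isScalarTower_liftAlgebra B (FractionRing R)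
  have : IsScalarTower ℂ (FractionRing B) (FractionRing R) :=
    IsScalarTower.of_algebraMap_eq (fun c => by
      rw [IsScalarTower.algebraMap_apply ℂ B (FractionRing B),
        ← IsScalarTower.algebraMap_apply B (FractionRing B) (FractionRing R),
        IsScalarTower.algebraMap_apply B R (FractionRing R),
        ← IsScalarTower.algebraMap_apply ℂ B R,
        ← IsScalarTower.algebraMap_apply ℂ R (FractionRing R)])
  set xL : Fin n → FractionRing R := fun i => algebraMap R (FractionRing R) (x i) with hxL
  have hintL : ∀ i, IsIntegral (FractionRing B) (xL i) := fun i =>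
    (IsIntegral.algebraMap (B := FractionRing R) (hint i)).tower_top
  have hmemR : ∀ s : R, algebraMap R (FractionRing R) s ∈
      IntermediateField.adjoin (FractionRing B) (Set.range xL) := by
    intro s
    have hs : s ∈ Algebra.adjoin B (Set.range x) := by rw [hgen]; trivial
    induction hs using Algebra.adjoin_induction with
    | mem t ht =>
      obtain ⟨i, rfl⟩ := ht
      exact IntermediateField.subset_adjoin _ _ ⟨i, rfl⟩
    | algebraMap b =>
      rw [← IsScalarTower.algebraMap_apply B R (FractionRing R),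
        IsScalarTower.algebraMap_apply B (FractionRing B) (FractionRing R)]
      exact IntermediateField.algebraMap_mem _ _
    | add u v _ _ hu hv => rw [map_add]; exact add_mem hu hv
    | mul u v _ _ hu hv => rw [map_mul]; exact mul_mem hu hv
  have htop : IntermediateField.adjoin (FractionRing B) (Set.range xL) = ⊤ := by
    rw [eq_top_iff]
    intro l _
    obtain ⟨u, v, hv, rfl⟩ := IsFractionRing.div_surjective (A := R) l
    exact div_mem (hmemR u) (hmemR v)
  have hfd : FiniteDimensional (FractionRing B) (FractionRing R) := by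
    have h1 : FiniteDimensional (FractionRing B)
        (IntermediateField.adjoin (FractionRing B) (Set.range xL)) :=
      IntermediateField.finiteDimensional_adjoin (by
        rintro _ ⟨i, rfl⟩
        exact hintL i)
    rw [htop] at h1
    exact (IntermediateField.topEquiv (F := FractionRing B)
      (E := FractionRing R)).toLinearEquiv.finiteDimensional
  obtain ⟨a, ha⟩ := hP (FractionRing B) (FractionRing R) n xL htop
  refine ⟨a, fun s => ?_⟩
  set ℓ : R := ∑ i, algebraMap ℂ R (a i) * x i with hℓ
  have hℓL : ∑ i, algebraMap ℂ (FractionRing R) (a i) * xL i =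
      algebraMap R (FractionRing R) ℓ := by
    rw [hℓ, map_sum]
    refine Finset.sum_congr rfl (fun i _ => ?_)
    rw [map_mul, ← IsScalarTower.algebraMap_apply ℂ R (FractionRing R)]
  rw [hℓL] at ha
  have hmem : algebraMap R (FractionRing R) s ∈
      (IntermediateField.adjoin (FractionRing B)
        {algebraMap R (FractionRing R) ℓ}).toSubalgebra := by
    rw [ha]; trivial
  rw [IntermediateField.adjoin_simple_toSubalgebra_of_isAlgebraic
    (IsAlgebraic.of_finite (FractionRing B) _), Algebra.adjoin_singleton_eq_range_aeval] at hmem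
  obtain ⟨P, hPs⟩ := hmem
  obtain ⟨b, hb0, hb⟩ := IsLocalization.integerNormalization_spec (nonZeroDivisors B) P
  refine ⟨b, nonZeroDivisors.ne_zero hb0,
    IsLocalization.integerNormalization (nonZeroDivisors B) P, ?_⟩
  apply IsFractionRing.injective R (FractionRing R)
  have h2 : Polynomial.aeval (algebraMap R (FractionRing R) ℓ) (b • P) =
      b • Polynomial.aeval (algebraMap R (FractionRing R) ℓ) P :=
    LinearMap.map_smul_of_tower (Polynomial.aeval (algebraMap R (FractionRing R) ℓ)).toLinearMap b P
  have h3 : Polynomial.aeval (algebraMap R (FractionRing R) ℓ) P =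
      algebraMap R (FractionRing R) s := hPs
  rw [← Polynomial.aeval_algebraMap_apply, ← Polynomial.aeval_map_algebraMap (FractionRing B), hb,
    h2, h3, Algebra.smul_def, Algebra.smul_def, map_mul,
    ← IsScalarTower.algebraMap_apply B R (FractionRing R)]

/-- The equation of a birational projection. -/
private theorem ModelAux.core (hP : S_Prim) (r n : ℕ) (R : Type) [CommRing R] [IsDomain R]
    [Algebra ℂ R] [Algebra (MvPolynomial (Fin r) ℂ) R] [IsScalarTower ℂ (MvPolynomial (Fin r) ℂ) R]
    (hinj : Function.Injective (algebraMap (MvPolynomial (Fin r) ℂ) R)) (x : Fin n → R)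
    (hint : ∀ i, IsIntegral (MvPolynomial (Fin r) ℂ) (x i))
    (hgen : Algebra.adjoin (MvPolynomial (Fin r) ℂ) (Set.range x) = ⊤) :
    ∃ (a : Fin n → ℂ) (f : Polynomial (MvPolynomial (Fin r) ℂ)) (g : MvPolynomial (Fin r) ℂ)
      (G : Fin n → Polynomial (MvPolynomial (Fin r) ℂ)), f.Monic ∧ g ≠ 0 ∧
      (∀ q, Polynomial.aeval (∑ i, algebraMap ℂ R (a i) * x i) q = 0 ↔ f ∣ q) ∧
      ∀ j, algebraMap (MvPolynomial (Fin r) ℂ) R g * x j =
        Polynomial.aeval (∑ i, algebraMap ℂ R (a i) * x i) (G j) := by
  obtain ⟨a, ha⟩ := ModelAux.prim hP hinj n x hint hgen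
  have hf : FaithfulSMul (MvPolynomial (Fin r) ℂ) R :=
    (faithfulSMul_iff_algebraMap_injective (MvPolynomial (Fin r) ℂ) R).2 hinj
  have hℓ : IsIntegral (MvPolynomial (Fin r) ℂ) (∑ i, algebraMap ℂ R (a i) * x i) := by
    refine IsIntegral.sum _ (fun i _ => IsIntegral.mul ?_ (hint i))
    rw [IsScalarTower.algebraMap_apply ℂ (MvPolynomial (Fin r) ℂ) R]
    exact isIntegral_algebraMap
  choose b hb P hbP using fun j => ha (x j)
  refine ⟨a, minpoly (MvPolynomial (Fin r) ℂ) (∑ i, algebraMap ℂ R (a i) * x i), ∏ j, b j,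
    fun j => Polynomial.C (∏ i ∈ Finset.univ.erase j, b i) * P j, minpoly.monic hℓ,
    Finset.prod_ne_zero_iff.2 (fun j _ => hb j), fun q => minpoly.isIntegrallyClosed_dvd_iff hℓ q,
    fun j => ?_⟩
  rw [map_mul, Polynomial.aeval_C, ← hbP, Algebra.smul_def, ← mul_assoc, ← map_mul,
    Finset.prod_erase_mul _ _ (Finset.mem_univ j)]

/-- The equation is homogeneous. -/
private theorem ModelAux.homog {N r : ℕ} {I : Ideal (Sx N)} (hH : IsHom I)
    (z : Fin (r + 1) → Sx N) (hz : ∀ i, (z i).IsHomogeneous 1) (F : Sx r) (ρ : ℕ)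
    (mem : ∀ q : Sx r, aeval z q ∈ I ↔ F ∣ q) (hm : (finSuccEquiv ℂ r F).Monic)
    (hρ : (finSuccEquiv ℂ r F).natDegree = ρ) : F.IsHomogeneous ρ := by
  have h1 : aeval z (homogeneousComponent ρ F) = homogeneousComponent ρ (aeval z F) := by
    have h2 : aeval z F = ∑ i ∈ Finset.range (F.totalDegree + 1),
        aeval z (homogeneousComponent i F) := by
      rw [← map_sum, sum_homogeneousComponent]
    have h3 : ∀ i, (aeval z (homogeneousComponent i F)).IsHomogeneous i := by
      intro i
      have := (homogeneousComponent_isHomogeneous i F).aeval z hz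
      rwa [one_mul] at this
    rw [h2, map_sum]
    have h4 : ∀ i ∈ Finset.range (F.totalDegree + 1),
        homogeneousComponent ρ (aeval z (homogeneousComponent i F)) =
        if i = ρ then aeval z (homogeneousComponent ρ F) else 0 := by
      intro i _
      rw [homogeneousComponent_of_mem (h3 i)]
      by_cases h : i = ρ
      · subst h; simp
      · rw [if_neg h, if_neg (fun h' => h h'.symm)]
    rw [Finset.sum_congr rfl h4, Finset.sum_ite_eq']
    split_ifs with h5
    · rfl
    · have h6 : homogeneousComponent ρ F = 0 := by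
        apply homogeneousComponent_eq_zero
        simp at h5
        omega
      rw [h6, map_zero]
  have h2 : F ∣ homogeneousComponent ρ F := by
    rw [← mem, h1]
    exact hH _ ((mem F).2 dvd_rfl) ρ
  have hdeg : ∀ (i : ℕ) (m : Fin r →₀ ℕ), (Finsupp.cons i m).degree = i + m.degree := by
    intro i m
    rw [Finsupp.degree_eq_sum, Finsupp.degree_eq_sum, Fin.sum_univ_succ]
    simp
  have h3 : (finSuccEquiv ℂ r (homogeneousComponent ρ F)).coeff ρ = 1 := by
    ext m
    rw [finSuccEquiv_coeff_coeff, coeff_homogeneousComponent, hdeg]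
    have h4 : (finSuccEquiv ℂ r F).coeff ρ = 1 := by rw [← hρ]; exact hm
    rw [← finSuccEquiv_coeff_coeff, h4]
    split_ifs with h5
    · rfl
    · rw [coeff_one, if_neg]
      rintro rfl
      simp at h5
  have h4 : (finSuccEquiv ℂ r (homogeneousComponent ρ F)).natDegree ≤ ρ := by
    rw [Polynomial.natDegree_le_iff_coeff_eq_zero]
    intro i hi
    ext m
    rw [finSuccEquiv_coeff_coeff, coeff_homogeneousComponent, hdeg, if_neg (by omega)]
    simp
  have h5 := Polynomial.eq_of_monic_of_dvd_of_natDegree_le hm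
    (Polynomial.monic_of_natDegree_le_of_coeff_eq_one ρ h4 h3) (map_dvd (finSuccEquiv ℂ r) h2)
    (by rw [hρ]; exact h4)
  have h6 := (finSuccEquiv ℂ r).injective h5
  rw [← h6]
  exact homogeneousComponent_isHomogeneous ρ F

/-- A birational projection of `X` to a hypersurface. -/
theorem lModel : S_Prim → S_Model := by
  intro hP N I hI hH r y D hy hind hint hrk
  have hI' := hI
  let _ : Algebra (MvPolynomial (Fin r) ℂ) (Sx N ⧸ I) :=
    (aeval (R := ℂ) (fun i => Ideal.Quotient.mk I (y i))).toRingHom.toAlgebra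
  have hmap : ∀ q : MvPolynomial (Fin r) ℂ,
      algebraMap (MvPolynomial (Fin r) ℂ) (Sx N ⧸ I) q = Ideal.Quotient.mk I (aeval y q) := by
    intro q
    exact (MvPolynomial.comp_aeval_apply y (Ideal.Quotient.mkₐ ℂ I) q).symm
  have htow : IsScalarTower ℂ (MvPolynomial (Fin r) ℂ) (Sx N ⧸ I) := by
    refine IsScalarTower.of_algebraMap_eq (fun c => ?_)
    rw [hmap, algebraMap_eq, aeval_C]
    rfl
  have hinj : Function.Injective (algebraMap (MvPolynomial (Fin r) ℂ) (Sx N ⧸ I)) := hind
  have hdom : IsDomain (Sx N ⧸ I) := inferInstance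
  choose m p hpm hp using hint
  have hintx : ∀ i : Fin (N + 1), IsIntegral (MvPolynomial (Fin r) ℂ)
      (Ideal.Quotient.mk I (X i)) := by
    intro j
    refine ⟨Polynomial.X ^ (m j) + ∑ k ∈ Finset.range (m j), Polynomial.C (p j k) *
      Polynomial.X ^ k, ?_, ?_⟩
    · apply Polynomial.monic_X_pow_add
      refine (Polynomial.degree_sum_le _ _).trans_lt ?_
      rw [Finset.sup_lt_iff (WithBot.bot_lt_coe _)]
      intro k hk
      refine (Polynomial.degree_C_mul_X_pow_le k _).trans_lt ?_
      exact_mod_cast Finset.mem_range.1 hk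
    · rw [Polynomial.eval₂_add, Polynomial.eval₂_X_pow, Polynomial.eval₂_finsetSum]
      have h1 := Ideal.Quotient.eq_zero_iff_mem.2 (hp j)
      rw [map_add, map_pow, map_sum] at h1
      rw [← h1]
      congr 1
      refine Finset.sum_congr rfl (fun k _ => ?_)
      rw [Polynomial.eval₂_mul, Polynomial.eval₂_C, Polynomial.eval₂_X_pow, hmap, map_mul, map_pow]
  have hgen : Algebra.adjoin (MvPolynomial (Fin r) ℂ)
      (Set.range fun i : Fin (N + 1) => (Ideal.Quotient.mk I (X i))) = ⊤ := by
    rw [eq_top_iff]
    intro u _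
    obtain ⟨q, rfl⟩ := Ideal.Quotient.mk_surjective u
    induction q using MvPolynomial.induction_on with
    | C c =>
      have h1 : Ideal.Quotient.mk I (C c) =
          algebraMap (MvPolynomial (Fin r) ℂ) (Sx N ⧸ I) (C c) := by
        rw [hmap, aeval_C]; rfl
      rw [h1]
      exact Subalgebra.algebraMap_mem _ _
    | add u v hu hv => rw [map_add]; exact add_mem (hu trivial) (hv trivial)
    | mul_X u i hu =>
      rw [map_mul]
      exact mul_mem (hu trivial) (Algebra.subset_adjoin ⟨i, rfl⟩)
  obtain ⟨a, f, g, G, hf, hg0, hdvd, hG⟩ := ModelAux.core hP r (N + 1) (Sx N ⧸ I) hinj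
    (fun i => Ideal.Quotient.mk I (X i)) hintx hgen
  set L : Sx N := ∑ i, C (a i) * X i with hL
  have hL1 : ∑ i, algebraMap ℂ (Sx N ⧸ I) (a i) * Ideal.Quotient.mk I (X i) =
      Ideal.Quotient.mk I L := by
    rw [hL, map_sum]
    refine Finset.sum_congr rfl (fun i _ => ?_)
    rw [map_mul]
    rfl
  simp only [hL1] at hdvd hG
  have hLhom : L.IsHomogeneous 1 :=
    IsHomogeneous.sum _ _ _ (fun i _ => by
      have := (isHomogeneous_C (Fin (N + 1)) (a i)).mul (isHomogeneous_X ℂ i)
      rwa [zero_add] at this)
  set z : Fin (r + 1) → Sx N := Fin.cons L y with hz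
  have hzhom : ∀ i, (z i).IsHomogeneous 1 := by
    intro i
    refine Fin.cases ?_ (fun i => ?_) i
    · exact hLhom
    · exact hy i
  have hzq : ∀ q : Sx r, Ideal.Quotient.mk I (aeval z q) =
      Polynomial.aeval (Ideal.Quotient.mk I L) (finSuccEquiv ℂ r q) := by
    intro q
    have h1 : (Ideal.Quotient.mkₐ ℂ I).comp (aeval z) =
        ((Polynomial.aeval (R := MvPolynomial (Fin r) ℂ)
          (Ideal.Quotient.mk I L)).restrictScalars ℂ).comp (finSuccEquiv ℂ r).toAlgHom := by
      apply MvPolynomial.algHom_ext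
      intro i
      refine Fin.cases ?_ (fun i => ?_) i
      · simp [hz, finSuccEquiv_X_zero]
      · simp only [AlgHom.comp_apply, aeval_X]
        have h2 : (finSuccEquiv ℂ r).toAlgHom (X i.succ) = Polynomial.C (X i) :=
          finSuccEquiv_X_succ
        rw [h2, AlgHom.restrictScalars_apply, Polynomial.aeval_C, hmap, aeval_X]
        rfl
    exact DFunLike.congr_fun h1 q
  have hmem : ∀ q : Sx r, aeval z q ∈ I ↔ (finSuccEquiv ℂ r).symm f ∣ q := by
    intro q
    rw [← Ideal.Quotient.eq_zero_iff_mem, hzq, hdvd]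
    constructor
    · intro h
      have := map_dvd (finSuccEquiv ℂ r).symm h
      rwa [AlgEquiv.symm_apply_apply] at this
    · intro h
      have := map_dvd (finSuccEquiv ℂ r) h
      rwa [AlgEquiv.apply_symm_apply] at this
  have hren : ∀ q : MvPolynomial (Fin r) ℂ, aeval z (rename Fin.succ q) = aeval y q := by
    intro q
    rw [aeval_rename]
    rfl
  have hC : ∀ q : Polynomial (MvPolynomial (Fin r) ℂ),
      Ideal.Quotient.mk I (aeval z ((finSuccEquiv ℂ r).symm q)) =
      Polynomial.aeval (Ideal.Quotient.mk I L) q := by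
    intro q
    rw [hzq, AlgEquiv.apply_symm_apply]
  refine ⟨{ z := z, F := (finSuccEquiv ℂ r).symm f, ρ := f.natDegree,
            g := (finSuccEquiv ℂ r).symm (Polynomial.C g),
            G := fun j => (finSuccEquiv ℂ r).symm (G j), m := m,
            p := fun j k => rename Fin.succ (p j k), zhom := hzhom, Fhom := ?_, mem := hmem,
            gI := ?_, hG := ?_, phom := ?_, hp := ?_ }, ?_⟩
  · apply ModelAux.homog hH z hzhom _ _ hmem
    · rw [AlgEquiv.apply_symm_apply]; exact hf
    · rw [AlgEquiv.apply_symm_apply]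
  · intro h
    rw [← Ideal.Quotient.eq_zero_iff_mem, hC, Polynomial.aeval_C] at h
    exact hg0 (hinj (by rw [h, map_zero]))
  · intro j
    rw [← Ideal.Quotient.eq_zero_iff_mem, map_sub, map_mul, hC, hC, Polynomial.aeval_C, hG j,
      sub_self]
  · intro j k hk
    exact (hpm j k hk).rename_isHomogeneous
  · intro j
    simp only [hren]
    exact hp j
  · apply hrk f.natDegree (fun i => L ^ (i : ℕ))
    intro b hb
    rw [← Ideal.Quotient.eq_zero_iff_mem, map_sum] at hb
    have h1 : Polynomial.aeval (Ideal.Quotient.mk I L)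
        (∑ i : Fin f.natDegree, Polynomial.C (b i) * Polynomial.X ^ (i : ℕ)) = 0 := by
      rw [← hb, map_sum]
      refine Finset.sum_congr rfl (fun i _ => ?_)
      rw [map_mul, Polynomial.aeval_C, map_pow, Polynomial.aeval_X, map_mul, map_pow, hmap]
    rw [hdvd] at h1
    have h2 : ∑ i : Fin f.natDegree, Polynomial.C (b i) * Polynomial.X ^ (i : ℕ) = 0 := by
      by_contra h3
      have h4 := Polynomial.degree_le_of_dvd h1 h3
      have h5 : (∑ i : Fin f.natDegree, Polynomial.C (b i) * Polynomial.X ^ (i : ℕ)).degree <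
          (f.natDegree : WithBot ℕ) := by
        refine (Polynomial.degree_sum_le _ _).trans_lt ?_
        rw [Finset.sup_lt_iff (WithBot.bot_lt_coe _)]
        intro k hk
        refine (Polynomial.degree_C_mul_X_pow_le _ _).trans_lt ?_
        exact_mod_cast k.2
      rw [Polynomial.degree_eq_natDegree hf.ne_zero] at h4
      exact absurd h5 (not_lt.2 h4)
    funext k
    have h6 := congrArg (fun q => Polynomial.coeff q (k : ℕ)) h2
    simp only [Polynomial.finsetSum_coeff, Polynomial.coeff_C_mul_X_pow,
      Polynomial.coeff_zero] at h6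
    rw [Finset.sum_eq_single k] at h6
    · simpa using h6
    · intro i _ hik
      rw [if_neg]
      intro h
      exact hik (Fin.ext h.symm)
    · intro h; exact absurd (Finset.mem_univ k) h

end Pool.Agent.Lib.MP_776403_ag.SD
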