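import Pool.Agent.Lib.MP_776403_ag.SD.SpecL

/-!
# THEOREM SD, part L, module Rank: the rank is at most the degree (helper94)
-/

set_option autoImplicit false

open MvPolynomial

noncomputable section

namespace Pool.Agent.Lib.MP_776403_ag.SD

namespace RankAux

/-! ## The dimension of the space of polynomials of bounded degree -/

theorem card_exp (s d : ℕ) :
    Nat.card {n : Fin (s + 1) →₀ ℕ | (n.sum fun _ e => e) ≤ d} = (d + s + 1).choose (s + 1) := by
  classical
  let T : Finset (Fin (s + 1) →₀ ℕ) := (Finset.range (d + 1)).biUnion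
    fun k => (Finset.univ : Finset (Fin (s + 1))).finsuppAntidiag k
  have hT : ∀ p : Fin (s + 1) →₀ ℕ, p ∈ T ↔ (p.sum fun _ e => e) ≤ d := by
    intro p
    have h0 : (p.sum fun _ e => e) = ∑ i, p i := Finsupp.sum_fintype _ _ (fun _ => rfl)
    rw [h0]
    simp only [T, Finset.mem_biUnion, Finset.mem_range, Finset.mem_finsuppAntidiag]
    constructor
    · rintro ⟨a, ha, h, -⟩
      exact (le_of_eq h).trans (by omega)
    · intro h
      exact ⟨∑ i, p i, by omega, rfl, Finset.subset_univ _⟩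
  have h1 : Nat.card {n : Fin (s + 1) →₀ ℕ | (n.sum fun _ e => e) ≤ d} = Nat.card {p // p ∈ T} :=
    Nat.card_congr ((Equiv.refl _).subtypeEquiv fun n => (hT n).symm)
  rw [h1, Nat.card_eq_fintype_card, Fintype.card_coe]
  have h3 : T.card = ∑ k ∈ Finset.range (d + 1), (k + s).choose s := by
    rw [Finset.card_biUnion]
    · refine Finset.sum_congr rfl fun k _ => ?_
      rw [Finset.card_finsuppAntidiag_nat_eq_choose, Finset.card_univ, Fintype.card_fin]
      have h4 : s + 1 + k - 1 = k + s := by omega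
      rw [h4]
      exact Nat.choose_symm_add
    · intro a _ b _ hab
      refine Finset.disjoint_left.2 ?_
      intro p hp hq
      rw [Finset.mem_finsuppAntidiag] at hp hq
      exact hab (hp.1.symm.trans hq.1)
  rw [h3, Nat.sum_range_add_choose]

theorem finrank_rd (s d : ℕ) :
    Module.finrank ℂ (restrictTotalDegree (Fin (s + 1)) ℂ d) = (d + s + 1).choose (s + 1) := by
  have h := Module.finrank_eq_nat_card_basis
    (basisRestrictSupport ℂ {n : Fin (s + 1) →₀ ℕ | (n.sum fun _ e => e) ≤ d})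
  have h2 : Module.finrank ℂ (restrictTotalDegree (Fin (s + 1)) ℂ d)
      = Nat.card {n : Fin (s + 1) →₀ ℕ | (n.sum fun _ e => e) ≤ d} := h
  rw [h2]
  exact card_exp s d

/-! ## Degrees -/

variable {N : ℕ}

theorem totalDegree_aeval {r : ℕ} {y : Fin r → Sx N} (hy : ∀ i, (y i).IsHomogeneous 1)
    (p : MvPolynomial (Fin r) ℂ) : (aeval y p : Sx N).totalDegree ≤ p.totalDegree := by
  classical
  rw [aeval_def, eval₂_eq]
  refine totalDegree_finsetSum_le fun d hd => ?_
  refine (totalDegree_mul _ _).trans ?_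
  have h1 : ((algebraMap ℂ (Sx N)) (coeff d p)).totalDegree = 0 := by
    rw [MvPolynomial.algebraMap_eq]
    exact totalDegree_C _
  rw [h1, zero_add]
  refine (totalDegree_finsetProd _ _).trans ?_
  have h2 : ∀ i ∈ d.support, (y i ^ d i).totalDegree ≤ d i := by
    intro i _
    refine (totalDegree_pow _ _).trans ?_
    calc d i * (y i).totalDegree ≤ d i * 1 := Nat.mul_le_mul_left _ (hy i).totalDegree_le
      _ = d i := mul_one _
  exact (Finset.sum_le_sum h2).trans (le_totalDegree hd)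

/-- the image of the polynomials of degree `≤ n` in the quotient -/
def V (I : Ideal (Sx N)) (n : ℕ) : Submodule ℂ (Sx N ⧸ I) :=
  (restrictTotalDegree (Fin (N + 1)) ℂ n).map (Ideal.Quotient.mkₐ ℂ I).toLinearMap

instance (I : Ideal (Sx N)) (n : ℕ) : FiniteDimensional ℂ (V I n) := by
  unfold V
  infer_instance

theorem gr_le_V (I : Ideal (Sx N)) (n : ℕ) : gr I n ≤ V I n := by
  refine Submodule.map_mono fun p hp => ?_
  rw [mem_restrictTotalDegree]
  exact IsHomogeneous.totalDegree_le hp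

instance (I : Ideal (Sx N)) (n : ℕ) : FiniteDimensional ℂ (gr I n) :=
  Submodule.finiteDimensional_of_le (gr_le_V I n)

theorem V_succ_le (I : Ideal (Sx N)) (n : ℕ) : V I (n + 1) ≤ V I n ⊔ gr I (n + 1) := by
  rintro _ ⟨p, hp, rfl⟩
  have hp' : p.totalDegree ≤ n + 1 := (mem_restrictTotalDegree _ _ _).1 hp
  have e : p = (∑ i ∈ Finset.range (n + 1), homogeneousComponent i p)
      + homogeneousComponent (n + 1) p := by
    rw [← Finset.sum_range_succ]
    conv_lhs => rw [← sum_homogeneousComponent p]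
    refine Finset.sum_subset ?_ ?_
    · intro i hi
      rw [Finset.mem_range] at hi ⊢
      omega
    · intro i _ hi
      rw [Finset.mem_range, not_lt] at hi
      exact homogeneousComponent_eq_zero _ _ (by omega)
  rw [e, map_add]
  refine Submodule.add_mem_sup ⟨_, ?_, rfl⟩ ⟨_, homogeneousComponent_isHomogeneous _ _, rfl⟩
  refine Submodule.sum_mem _ fun i hi => ?_
  rw [mem_restrictTotalDegree]
  have h1 := (homogeneousComponent_isHomogeneous i p).totalDegree_le
  rw [Finset.mem_range] at hi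
  omega

theorem V_zero_le (I : Ideal (Sx N)) : V I 0 ≤ gr I 0 := by
  refine Submodule.map_mono fun p hp => ?_
  rw [mem_restrictTotalDegree, Nat.le_zero, totalDegree_eq_zero_iff_eq_C] at hp
  rw [mem_homogeneousSubmodule, hp]
  exact isHomogeneous_C _ _

theorem finrank_V (I : Ideal (Sx N)) (D e : ℕ)
    (h : ∀ m : ℕ, Module.finrank ℂ (gr I m) ≤ D * Nat.choose (m + e) e) (n : ℕ) :
    Module.finrank ℂ (V I n) ≤ D * Nat.choose (n + e + 1) (e + 1) := by
  have h1 : ∀ n, Module.finrank ℂ (V I n) ≤ ∑ k ∈ Finset.range (n + 1), D * Nat.choose (k + e) e := by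
    intro n
    induction n with
    | zero =>
      rw [zero_add, Finset.sum_range_one]
      exact (Submodule.finrank_mono (V_zero_le I)).trans (h 0)
    | succ n ih =>
      rw [Finset.sum_range_succ]
      exact ((Submodule.finrank_mono (V_succ_le I n)).trans
        (Submodule.finrank_add_le_finrank_add_finrank _ _)).trans (add_le_add ih (h (n + 1)))
  have h2 := h1 n
  rwa [← Finset.mul_sum, Nat.sum_range_add_choose] at h2

/-! ## The main inequality -/

theorem main_ineq (I : Ideal (Sx N)) (D e : ℕ)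
    (h : ∀ m : ℕ, Module.finrank ℂ (gr I m) ≤ D * Nat.choose (m + e) e) (t : ℕ)
    (y : Fin (t + 1) → Sx N) (hy : ∀ i, (y i).IsHomogeneous 1) (ρ : ℕ) (g : Fin ρ → Sx N)
    (hb : ∀ b : Fin ρ → MvPolynomial (Fin (t + 1)) ℂ, ∑ i, aeval y (b i) * g i ∈ I → b = 0) (m : ℕ) :
    ρ * Nat.choose (m + t + 1) (t + 1) ≤
      D * Nat.choose (m + (∑ i, (g i).totalDegree) + e + 1) (e + 1) := by
  set w := ∑ i, (g i).totalDegree with hw
  let L0 : (Fin ρ → restrictTotalDegree (Fin (t + 1)) ℂ m) →ₗ[ℂ] Sx N :=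
    ∑ i, (LinearMap.mulRight ℂ (g i)) ∘ₗ (aeval y : MvPolynomial (Fin (t + 1)) ℂ →ₐ[ℂ] Sx N).toLinearMap ∘ₗ
      (Submodule.subtype _) ∘ₗ (LinearMap.proj i)
  have hL0 : ∀ b, L0 b = ∑ i, aeval y (b i).1 * g i := by
    intro b
    simp only [L0, LinearMap.sum_apply]
    rfl
  let L : (Fin ρ → restrictTotalDegree (Fin (t + 1)) ℂ m) →ₗ[ℂ] V I (m + w) :=
    LinearMap.codRestrict _ ((Ideal.Quotient.mkₐ ℂ I).toLinearMap ∘ₗ L0) (by
      intro b
      refine ⟨L0 b, ?_, rfl⟩
      rw [hL0]
      refine Submodule.sum_mem _ fun i _ => ?_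
      rw [mem_restrictTotalDegree]
      refine (totalDegree_mul _ _).trans (add_le_add ?_ ?_)
      · exact (totalDegree_aeval hy _).trans ((mem_restrictTotalDegree _ _ _).1 (b i).2)
      · exact Finset.single_le_sum (f := fun i => (g i).totalDegree) (fun _ _ => Nat.zero_le _)
          (Finset.mem_univ i))
  have hLi : Function.Injective L := by
    rw [← LinearMap.ker_eq_bot, LinearMap.ker_eq_bot']
    intro b hb0
    have h1 : Ideal.Quotient.mk I (L0 b) = 0 := congrArg Subtype.val hb0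
    rw [Ideal.Quotient.eq_zero_iff_mem, hL0] at h1
    have h2 := hb _ h1
    funext i
    exact Subtype.ext (congrFun h2 i)
  have h3 := LinearMap.finrank_le_finrank_of_injective hLi
  rw [Module.finrank_pi_fintype, Finset.sum_const, Finset.card_univ, Fintype.card_fin, smul_eq_mul,
    finrank_rd] at h3
  exact h3.trans (finrank_V I D e h _)

/-! ## Growth -/

theorem choose_cmp (w m s : ℕ) :
    (m + w + s).choose s * m ^ s ≤ (m + s).choose s * (m + w) ^ s := by
  induction s with
  | zero => simp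
  | succ s ih =>
    have h1 := Nat.add_one_mul_choose_eq (m + w + s) s
    have h2 := Nat.add_one_mul_choose_eq (m + s) s
    have h3 : (m + w + s + 1) * m ≤ (m + s + 1) * (m + w) := by nlinarith [Nat.zero_le (s * w)]
    refine Nat.le_of_mul_le_mul_right (c := s + 1) ?_ (Nat.succ_pos s)
    have e1 : (m + w + (s + 1)).choose (s + 1) * m ^ (s + 1) * (s + 1) =
        ((m + w + s).choose s * m ^ s) * ((m + w + s + 1) * m) := by
      calc (m + w + (s + 1)).choose (s + 1) * m ^ (s + 1) * (s + 1)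
          = ((m + w + s + 1).choose (s + 1) * (s + 1)) * m ^ (s + 1) := by ring_nf
        _ = ((m + w + s + 1) * (m + w + s).choose s) * m ^ (s + 1) := by rw [h1]
        _ = _ := by ring
    have e2 : (m + (s + 1)).choose (s + 1) * (m + w) ^ (s + 1) * (s + 1) =
        ((m + s).choose s * (m + w) ^ s) * ((m + s + 1) * (m + w)) := by
      calc (m + (s + 1)).choose (s + 1) * (m + w) ^ (s + 1) * (s + 1)
          = ((m + s + 1).choose (s + 1) * (s + 1)) * (m + w) ^ (s + 1) := by ring_nf
        _ = ((m + s + 1) * (m + s).choose s) * (m + w) ^ (s + 1) := by rw [h2]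
        _ = _ := by ring
    rw [e1, e2]
    exact Nat.mul_le_mul ih h3

/-- from an inequality of binomial coefficients to powers -/
theorem to_pow (w m s ρ D : ℕ) (h : ρ * (m + s).choose s ≤ D * (m + w + s).choose s) :
    ρ * m ^ s ≤ D * (m + w) ^ s := by
  have h0 : 0 < (m + s).choose s := Nat.choose_pos (Nat.le_add_left _ _)
  refine Nat.le_of_mul_le_mul_right (c := (m + s).choose s) ?_ h0
  calc ρ * m ^ s * (m + s).choose s = (ρ * (m + s).choose s) * m ^ s := by ring
    _ ≤ (D * (m + w + s).choose s) * m ^ s := Nat.mul_le_mul_right _ h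
    _ = D * ((m + w + s).choose s * m ^ s) := by ring
    _ ≤ D * ((m + s).choose s * (m + w) ^ s) := Nat.mul_le_mul_left _ (choose_cmp w m s)
    _ = D * (m + w) ^ s * (m + s).choose s := by ring

theorem le_of_growth (w s ρ D : ℕ) (h : ∀ m : ℕ, ρ * m ^ s ≤ D * (m + w) ^ s) : ρ ≤ D := by
  by_contra hlt
  rw [not_le] at hlt
  have h1 : ∀ m : ℕ, (D + 1) * m ^ s ≤ D * (m + w) ^ s := fun m =>
    (Nat.mul_le_mul_right _ hlt).trans (h m)
  set m := (D + 1) * s * w + 1 with hm
  have h2 : ((D : ℝ) + 1) * (m : ℝ) ^ s ≤ D * ((m : ℝ) + w) ^ s := by exact_mod_cast h1 m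
  have hmw : (0 : ℝ) < (m : ℝ) + w := by positivity
  have hb := one_add_mul_le_pow (a := -((w : ℝ) / ((m : ℝ) + w))) (by
    have : (w : ℝ) / ((m : ℝ) + w) ≤ 1 := by
      rw [div_le_one hmw]
      have : (0 : ℝ) ≤ m := Nat.cast_nonneg _
      linarith
    linarith) s
  have e1 : 1 + -((w : ℝ) / ((m : ℝ) + w)) = (m : ℝ) / ((m : ℝ) + w) := by
    field_simp
    ring
  rw [e1, div_pow] at hb
  have hp : (0 : ℝ) < ((m : ℝ) + w) ^ s := by positivity
  have h3 : ((D : ℝ) + 1) * ((m : ℝ) ^ s / ((m : ℝ) + w) ^ s) ≤ D := by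
    rw [← mul_div_assoc, div_le_iff₀ hp]
    exact h2
  have h4 : ((D : ℝ) + 1) * (1 + (s : ℝ) * -((w : ℝ) / ((m : ℝ) + w))) ≤ D :=
    (mul_le_mul_of_nonneg_left hb (by positivity)).trans h3
  have h5 : (1 : ℝ) ≤ ((D : ℝ) + 1) * s * w / ((m : ℝ) + w) := by
    have : ((D : ℝ) + 1) * s * w / ((m : ℝ) + w) = ((D : ℝ) + 1) * (s * (w / ((m : ℝ) + w))) := by ring
    rw [this]
    nlinarith
  rw [le_div_iff₀ hmw] at h5
  have h6 : (m : ℝ) = ((D : ℝ) + 1) * s * w + 1 := by
    rw [hm]
    push_cast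
    ring
  have h7 : (0 : ℝ) ≤ w := Nat.cast_nonneg _
  linarith

theorem false_of_growth (w s D : ℕ)
    (h : ∀ m : ℕ, (m + (s + 1)).choose (s + 1) ≤ D * (m + w + s).choose s) : False := by
  have h1 : ∀ m : ℕ, (m + s + 1) * m ^ s ≤ ((s + 1) * D) * (m + w) ^ s := by
    intro m
    refine to_pow w m s (m + s + 1) ((s + 1) * D) ?_
    have h2 := Nat.add_one_mul_choose_eq (m + s) s
    calc (m + s + 1) * (m + s).choose s = (m + (s + 1)).choose (s + 1) * (s + 1) := h2
      _ ≤ (D * (m + w + s).choose s) * (s + 1) := Nat.mul_le_mul_right _ (h m)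
      _ = (s + 1) * D * (m + w + s).choose s := by ring
  set m := w + (s + 1) * D * 2 ^ s + 1 with hm
  have h3 := h1 m
  have h4 : (m + w) ^ s ≤ 2 ^ s * m ^ s := by
    rw [← mul_pow]
    refine Nat.pow_le_pow_left ?_ s
    omega
  have h5 : (m + s + 1) * m ^ s ≤ ((s + 1) * D * 2 ^ s) * m ^ s := by
    refine h3.trans ((Nat.mul_le_mul_left _ h4).trans (le_of_eq ?_))
    ring
  have h6 : 0 < m ^ s := Nat.pow_pos (by omega)
  have h7 := Nat.le_of_mul_le_mul_right h5 h6
  omega

end RankAux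

open RankAux in
theorem lRank : S_Rank := by
  intro N I D e h r y hy her ρ g hb
  obtain ⟨t, rfl⟩ : ∃ t, r = t + 1 := ⟨r - 1, by omega⟩
  have h1 := main_ineq I D e h t y hy ρ g hb
  set w := ∑ i, (g i).totalDegree with hw
  have hmono : ∀ m a b : ℕ, a ≤ b → (m + a).choose a ≤ (m + b).choose b := by
    intro m a b hab
    rw [Nat.choose_symm_add (a := m) (b := a) |>.symm, Nat.choose_symm_add (a := m) (b := b) |>.symm]
    exact Nat.choose_le_choose m (by omega)
  have h2 : ∀ m, ρ * (m + (e + 1)).choose (e + 1) ≤ D * (m + w + (e + 1)).choose (e + 1) := by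
    intro m
    refine (Nat.mul_le_mul_left _ (hmono m (e + 1) (t + 1) her)).trans ?_
    exact h1 m
  refine ⟨?_, fun hρ => ?_⟩
  · exact le_of_growth w (e + 1) ρ D fun m => to_pow w m (e + 1) ρ D (h2 m)
  · by_contra hne
    refine false_of_growth w (e + 1) D fun m => ?_
    calc (m + (e + 1 + 1)).choose (e + 1 + 1) ≤ (m + (t + 1)).choose (t + 1) :=
          hmono m _ _ (by omega)
      _ = 1 * (m + (t + 1)).choose (t + 1) := (one_mul _).symm
      _ ≤ ρ * (m + (t + 1)).choose (t + 1) := Nat.mul_le_mul_right _ hρ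
      _ ≤ D * (m + w + (e + 1)).choose (e + 1) := h1 m

end Pool.Agent.Lib.MP_776403_ag.SD
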