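import Pool.Agent.Lib.MP_776403_ag.SD.SpecL

/-!
# Part L: the numerical inequality
-/

set_option autoImplicit false

open MvPolynomial

noncomputable section

namespace Pool.Agent.Lib.MP_776403_ag.SD

theorem lRng : S_Rng := by
  intro c d hc
  induction c, hc using Nat.le_induction with
  | base =>
    intro hd
    rw [Fin.sum_univ_three, Fin.prod_univ_three]
    obtain ⟨u, hu⟩ := Nat.exists_eq_add_of_le (hd 0)
    obtain ⟨v, hv⟩ := Nat.exists_eq_add_of_le (hd 1)
    obtain ⟨w, hw⟩ := Nat.exists_eq_add_of_le (hd 2)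
    rw [hu, hv, hw]
    have h1 := Nat.zero_le (u * v * w)
    nlinarith [Nat.zero_le (u * v), Nat.zero_le (u * w), Nat.zero_le (v * w)]
  | succ c hc ih =>
    intro hd
    rw [Fin.sum_univ_succ, Fin.prod_univ_succ]
    have h1 := ih (fun i => d i.succ) fun i => hd i.succ
    have h2 : 8 ≤ ∏ i : Fin c, d i.succ := by
      calc 8 = 2 ^ 3 := by norm_num
        _ ≤ 2 ^ c := Nat.pow_le_pow_right (by norm_num) hc
        _ = ∏ _i : Fin c, 2 := by simp
        _ ≤ ∏ i : Fin c, d i.succ := Finset.prod_le_prod' fun i _ => hd i.succ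
    have h3 := hd 0
    obtain ⟨e, he⟩ := Nat.exists_eq_add_of_le h3
    obtain ⟨q, hq⟩ := Nat.exists_eq_add_of_le h2
    rw [hq] at h1
    rw [he, hq]
    nlinarith [Nat.zero_le (e * q)]

end Pool.Agent.Lib.MP_776403_ag.SD
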