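import Pool.Agent.Lib.MP_776403_ag.SD.SpecL

/-!
# THEOREM SD in the range of the problem, from `S_SD`, `S_Cov` and `S_Rng`
-/

set_option autoImplicit false

open MvPolynomial

noncomputable section

namespace Pool.Agent.Lib.MP_776403_ag.SD

theorem lSD2 : S_SD → S_Cov → S_Rng → S_SD2 := by
  intro hSD hCov hRng N c d I hc hd hN hI hh hnd hs hn hr
  have h1 := hRng c d hc hd
  have h2 : ∏ i, d i + c ≤ N := by omega
  exact hSD N c d I hd (by omega) hI hh hnd hs hn hr (hCov N c d I h2 hI hh hnd hs hr)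

end Pool.Agent.Lib.MP_776403_ag.SD
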