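import Pool.Agent.Lib.MP_776403_ag.SD.SpecL

/-!
# A primitive element which is a `ℂ`-linear combination of given generators
-/

set_option autoImplicit false

open MvPolynomial

noncomputable section

namespace Pool.Agent.Lib.MP_776403_ag.SD

/-- The linear map `a ↦ ∑ a_i x_i`. -/
private def primMap (L : Type) [Field L] [Algebra ℂ L] {n : ℕ} (x : Fin n → L) :
    (Fin n → ℂ) →ₗ[ℂ] L :=
  ∑ i, (LinearMap.proj i).smulRight (x i)

private theorem primMap_apply (L : Type) [Field L] [Algebra ℂ L] {n : ℕ} (x : Fin n → L)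
    (a : Fin n → ℂ) : primMap L x a = ∑ i, algebraMap ℂ L (a i) * x i := by
  simp [primMap, Algebra.smul_def]

theorem lPrim : S_Prim := by
  intro K L _ _ _ _ _ _ _ n x hx
  classical
  have : CharZero K := charZero_of_injective_algebraMap (algebraMap ℂ K).injective
  have hfin : Finite (IntermediateField K L) :=
    (Field.exists_primitive_element_iff_finite_intermediateField K L).1
      ⟨inferInstance, Field.exists_primitive_element K L⟩
  let ι := {M : IntermediateField K L // M ≠ ⊤}
  let p : ι → Subspace ℂ (Fin n → ℂ) := fun M =>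
    ((Subalgebra.toSubmodule M.1.toSubalgebra).restrictScalars ℂ).comap (primMap L x)
  have hp : ∀ (M : ι) (a : Fin n → ℂ), a ∈ p M ↔ ∑ i, algebraMap ℂ L (a i) * x i ∈ M.1 := by
    intro M a
    change primMap L x a ∈ M.1 ↔ _
    rw [primMap_apply]
  have hne : ⋃ i, (p i : Set (Fin n → ℂ)) ≠ Set.univ := by
    intro h
    obtain ⟨M, hM⟩ := Subspace.exists_eq_top_of_iUnion_eq_univ h
    apply M.2
    suffices hle : IntermediateField.adjoin K (Set.range x) ≤ M.1 by
      rw [hx] at hle
      exact top_le_iff.1 hle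
    rw [IntermediateField.adjoin_le_iff]
    rintro _ ⟨j, rfl⟩
    have h1 : (Pi.single j 1 : Fin n → ℂ) ∈ p M := by rw [hM]; trivial
    rw [hp] at h1
    rw [Finset.sum_eq_single j] at h1
    · simpa using h1
    · intro b _ hb
      simp [Pi.single_eq_of_ne hb]
    · intro hj
      exact absurd (Finset.mem_univ j) hj
  obtain ⟨a, ha⟩ := (Set.ne_univ_iff_exists_notMem _).1 hne
  refine ⟨a, ?_⟩
  by_contra hcon
  apply ha
  rw [Set.mem_iUnion]
  exact ⟨⟨_, hcon⟩, (hp ⟨_, hcon⟩ a).2 (IntermediateField.mem_adjoin_simple_self K _)⟩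

end Pool.Agent.Lib.MP_776403_ag.SD
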