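import Pool.Agent.Lib.MP_776403_ag.SD.L.SpecC

/-!
# THEOREM SD, part L: every line through a general point is contained in a large cone of lines

The statements of `SpecC.lean` with a prescribed line: only the choice of the point `z` in
`S_Krull` changes.
-/

set_option autoImplicit false

open MvPolynomial

noncomputable section

namespace Pool.Agent.Lib.MP_776403_ag.SD

/-- (CnF2) As `S_CnF`, with a prescribed line `v₁`.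

PROOF.  As for `S_CnF`, but `S_Krull` at the point `z = v₁ - λ(v₁) x'` (`λ(x') = 1`) instead of `0`: `z` is a zero
of `ℓ`, and of the `(linS x' F).coeff (j + 1)` because `F (x' + t z) = F ((1 - t λ(v₁)) x' + t v₁) = 0`.  So
`P₀ ≤ ptI z`, and `v₁ = z + λ(v₁) x' ∈ Z ⊆ zer P`. -/
def S_CnF2 : Prop :=
  ∀ (r ρ : ℕ) (F : Sx r), F.IsHomogeneous ρ → ∀ x' : Vx r, x' ≠ 0 → eval x' F = 0 →
    ∀ v₁ : Vx r, (∀ s t : ℂ, eval (s • x' + t • v₁) F = 0) →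
    ∃ P : Ideal (Sx r), P.IsPrime ∧ IsHom P ∧ v₁ ∈ zer P ∧ DimGe P (r + 1 - ρ) ∧
      (∀ v ∈ zer P, ∀ s : ℂ, v + s • x' ∈ zer P) ∧
      ∀ v ∈ zer P, ∀ s t : ℂ, eval (s • x' + t • v) F = 0

/-- (CnL2) As `S_CnL`, with a prescribed line.

PROOF.  As for `S_CnL`.  In addition: let `x + t v₁ ∈ zer I` for all `t` and `v'₁ = z (v₁)` (`z` linear),
`v'₁ ∈ zer P'`.  Then `L (v'₁) = v₁`: `g (x' + t v'₁) ξ_j(t) = G_j (x' + t v'₁)` and `hG` at `x + t v₁`: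
`g (x' + t v'₁) (x_j + t v_(1,j)) = G_j (x' + t v'₁)`, so `ξ_j = x_j + t v_(1,j)`.  Hence `v₁ ∈ zer P`
(`P = Λ⁻¹ (P')`). -/
def S_CnL2 : Prop :=
  ∀ (N : ℕ) (I : Ideal (Sx N)), I.IsPrime → IsHom I → ∀ (r : ℕ) (M : Model I r),
    ∀ x ∈ zer I, x ≠ 0 → eval x (aeval M.z M.g) ≠ 0 → ∀ (D : ℕ) (P' : Ideal (Sx r)),
    P'.IsPrime → IsHom P' → DimGe P' D →
    (∀ v ∈ zer P', ∀ s : ℂ, v + s • (fun i => eval x (M.z i)) ∈ zer P') →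
    (∀ v ∈ zer P', ∀ s t : ℂ, eval (s • (fun i => eval x (M.z i)) + t • v) M.F = 0) →
    ∀ v₁ : Vx N, (∀ s t : ℂ, s • x + t • v₁ ∈ zer I) → (fun i => eval v₁ (M.z i)) ∈ zer P' →
    ∃ P : Ideal (Sx N), P.IsPrime ∧ IsHom P ∧ I ≤ P ∧ v₁ ∈ zer P ∧ DimGe P D ∧
      (∀ v ∈ zer P, ∀ s : ℂ, v + s • x ∈ zer P) ∧
      ∀ v ∈ zer P, ∀ s t : ℂ, s • x + t • v ∈ zer I

/-- (Cn2) EVERY LINE THROUGH A GENERAL POINT IS IN A LARGE CONE OF LINES.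

PROOF.  As for `S_Cn`, with `S_CnF2`, `S_CnL2` (`v'₁ = z (v₁)`: `F (s x' + t v'₁) = 0` because
`F (z (y)) = 0` for `y ∈ zer I`, `M.mem`). -/
def S_Cn2 : Prop :=
  ∀ (N c D : ℕ) (I : Ideal (Sx N)), c ≤ N → I.IsPrime → IsHom I → Smooth I c →
    (∃ y ∈ zer I, y ≠ 0) →
    (∀ m : ℕ, Module.finrank ℂ (gr I m) ≤ D * Nat.choose (m + (N - c)) (N - c)) →
    ∃ g : Sx N, g ∉ I ∧ ∀ x ∈ zer I, x ≠ 0 → eval x g ≠ 0 →
      ∀ v₁ : Vx N, (∀ s t : ℂ, s • x + t • v₁ ∈ zer I) →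
      ∃ P : Ideal (Sx N), P.IsPrime ∧ IsHom P ∧ I ≤ P ∧ v₁ ∈ zer P ∧ DimGe P (N - c + 2 - D) ∧
        (∀ v ∈ zer P, ∀ s : ℂ, v + s • x ∈ zer P) ∧
        ∀ v ∈ zer P, ∀ s t : ℂ, s • x + t • v ∈ zer I

end Pool.Agent.Lib.MP_776403_ag.SD
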